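import Mathlib

namespace Pool.Agent.Helper52.CP

open Set MeasureTheory Filter Topology

/-- the section integral -/
noncomputable def FF {ι : Type*} [Fintype ι] (a : ι → ℝ) : ℝ :=
  ∫ s in Ioi (0 : ℝ), ∏ j, (1 + a j ^ 2 * s ^ 2)⁻¹

/-- unit vectors with coordinate sum zero -/
def MM (ι : Type*) [Fintype ι] : Set (ι → ℝ) := {a | ∑ j, a j = 0 ∧ ∑ j, a j ^ 2 = 1}

theorem one_add_sum_le_prod {ι : Type*} (s : Finset ι) (f : ι → ℝ) (hf : ∀ i ∈ s, 0 ≤ f i) :
    1 + ∑ i ∈ s, f i ≤ ∏ i ∈ s, (1 + f i) := by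
  classical
  induction s using Finset.induction_on with
  | empty => simp
  | insert a s ha ih =>
    rw [Finset.sum_insert ha, Finset.prod_insert ha]
    have h1 := ih fun i hi => hf i (Finset.mem_insert_of_mem hi)
    have h2 := hf a (Finset.mem_insert_self _ _)
    have h3 : 0 ≤ ∑ i ∈ s, f i :=
      Finset.sum_nonneg fun i hi => hf i (Finset.mem_insert_of_mem hi)
    nlinarith [mul_nonneg h2 h3]

theorem factor_pos (x s : ℝ) : 0 < 1 + x ^ 2 * s ^ 2 := by positivity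

theorem prod_pos' {ι : Type*} (t : Finset ι) (a : ι → ℝ) (s : ℝ) :
    0 < ∏ j ∈ t, (1 + a j ^ 2 * s ^ 2)⁻¹ :=
  Finset.prod_pos fun j _ => inv_pos.2 (factor_pos _ _)

theorem prod_le_one' {ι : Type*} (t : Finset ι) (a : ι → ℝ) (s : ℝ) :
    ∏ j ∈ t, (1 + a j ^ 2 * s ^ 2)⁻¹ ≤ 1 :=
  Finset.prod_le_one (fun j _ => (inv_pos.2 (factor_pos _ _)).le) fun j _ =>
    inv_le_one_of_one_le₀ (by nlinarith [sq_nonneg (a j * s)])

theorem continuous_prod' {ι : Type*} (t : Finset ι) (a : ι → ℝ) :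
    Continuous fun s : ℝ => ∏ j ∈ t, (1 + a j ^ 2 * s ^ 2)⁻¹ := by
  apply continuous_finsetProd
  intro j _
  exact Continuous.inv₀ (by fun_prop) fun s => (factor_pos _ _).ne'

theorem prod_le_bound {ι : Type*} [Fintype ι] {a : ι → ℝ} (ha : ∑ j, a j ^ 2 = 1) (s : ℝ) :
    ∏ j, (1 + a j ^ 2 * s ^ 2)⁻¹ ≤ (1 + s ^ 2)⁻¹ := by
  rw [Finset.prod_inv_distrib]
  apply inv_anti₀ (by positivity)
  have := one_add_sum_le_prod Finset.univ (fun j => a j ^ 2 * s ^ 2) fun j _ => by positivity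
  rw [← Finset.sum_mul, ha, one_mul] at this
  exact this

theorem integrable_FF {ι : Type*} [Fintype ι] {a : ι → ℝ} (ha : ∑ j, a j ^ 2 = 1) :
    IntegrableOn (fun s : ℝ => ∏ j, (1 + a j ^ 2 * s ^ 2)⁻¹) (Ioi 0) := by
  apply Integrable.mono' integrable_inv_one_add_sq.integrableOn
  · exact (continuous_prod' _ a).aestronglyMeasurable
  · filter_upwards with s
    rw [Real.norm_of_nonneg (prod_pos' _ _ _).le]
    exact prod_le_bound ha s

theorem isCompact_MM (ι : Type*) [Fintype ι] : IsCompact (MM ι) := by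
  apply (isCompact_closedBall (0 : ι → ℝ) 1).of_isClosed_subset
  · have h1 : IsClosed {a : ι → ℝ | ∑ j, a j = 0} := isClosed_eq (by fun_prop) continuous_const
    have h2 : IsClosed {a : ι → ℝ | ∑ j, a j ^ 2 = 1} := isClosed_eq (by fun_prop) continuous_const
    exact h1.inter h2
  · intro a ha
    rw [mem_closedBall_zero_iff, pi_norm_le_iff_of_nonneg zero_le_one]
    intro i
    have h1 : a i ^ 2 ≤ ∑ j, a j ^ 2 :=
      Finset.single_le_sum (f := fun j => a j ^ 2) (fun j _ => sq_nonneg _) (Finset.mem_univ i)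
    rw [ha.2] at h1
    rw [Real.norm_eq_abs]
    exact (sq_le_one_iff_abs_le_one _).1 h1

theorem continuousOn_FF (ι : Type*) [Fintype ι] : ContinuousOn (FF (ι := ι)) (MM ι) := by
  unfold FF
  apply continuousOn_of_dominated (bound := fun s => (1 + s ^ 2)⁻¹)
  · intro a _
    exact (continuous_prod' _ a).aestronglyMeasurable
  · intro a ha
    filter_upwards with s
    rw [Real.norm_of_nonneg (prod_pos' _ _ _).le]
    exact prod_le_bound ha.2 s
  · exact integrable_inv_one_add_sq.integrableOn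
  · filter_upwards with s
    apply Continuous.continuousOn
    apply continuous_finsetProd
    intro j _
    exact Continuous.inv₀ (by fun_prop) fun a => (factor_pos _ _).ne'

theorem exists_max (ι : Type*) [Fintype ι] (h : (MM ι).Nonempty) :
    ∃ a ∈ MM ι, ∀ x ∈ MM ι, FF x ≤ FF a :=
  (isCompact_MM ι).exists_isMaxOn h (continuousOn_FF ι)

/-- the cubic identity -/
theorem cubic_id (x y z s : ℝ) : (1 + x ^ 2 * s ^ 2) * (1 + y ^ 2 * s ^ 2) * (1 + z ^ 2 * s ^ 2) =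
    (1 - (x * y + y * z + z * x) * s ^ 2) ^ 2 +
      s ^ 2 * ((x + y + z) - (x * y * z) * s ^ 2) ^ 2 := by ring

/-- moving three numbers with fixed first two symmetric functions -/
theorem exists_move {x1 x2 x3 t : ℝ} (h12 : x2 ≤ x1) (h3 : x3 < t) (h2 : t < x2) :
    ∃ y1 y2 : ℝ, y2 ≤ y1 ∧ y1 + y2 + t = x1 + x2 + x3 ∧
      y1 * y2 + y2 * t + t * y1 = x1 * x2 + x2 * x3 + x3 * x1 ∧
      y1 * y2 * t = x1 * x2 * x3 + (x1 - t) * (x2 - t) * (t - x3) := by
  set d : ℝ := (x1 + x2 + x3 - t) ^ 2 - 4 * ((x1 * x2 + x2 * x3 + x3 * x1) -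
    t * (x1 + x2 + x3 - t)) with hd
  have hd0 : 0 ≤ d := by
    have e : d * (x2 - x3) = (x2 - t) * (x1 - x2) ^ 2 + (t - x3) * (x1 - x3) ^ 2 +
        3 * (x2 - t) * (t - x3) * (x2 - x3) := by
      rw [hd]; ring
    have h : 0 ≤ d * (x2 - x3) := by
      rw [e]
      have a1 : 0 ≤ x2 - t := by linarith
      have a2 : 0 ≤ t - x3 := by linarith
      have a3 : 0 ≤ x2 - x3 := by linarith
      positivity
    have a3 : 0 < x2 - x3 := by linarith
    exact nonneg_of_mul_nonneg_left h a3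
  have hsq : Real.sqrt d ^ 2 = d := Real.sq_sqrt hd0
  refine ⟨((x1 + x2 + x3 - t) + Real.sqrt d) / 2, ((x1 + x2 + x3 - t) - Real.sqrt d) / 2, ?_, ?_,
    ?_, ?_⟩
  · have := Real.sqrt_nonneg d
    linarith
  · ring
  · have : ((x1 + x2 + x3 - t) + Real.sqrt d) / 2 * (((x1 + x2 + x3 - t) - Real.sqrt d) / 2) =
        ((x1 + x2 + x3 - t) ^ 2 - d) / 4 := by linear_combination (-1 / 4) * hsq
    rw [this, hd]
    ring
  · have : ((x1 + x2 + x3 - t) + Real.sqrt d) / 2 * (((x1 + x2 + x3 - t) - Real.sqrt d) / 2) =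
        ((x1 + x2 + x3 - t) ^ 2 - d) / 4 := by linear_combination (-1 / 4) * hsq
    rw [this, hd]
    ring

/-- updating three coordinates -/
theorem exists_update {ι : Type*} [Fintype ι] [DecidableEq ι] (a : ι → ℝ) {i j k : ι} (hij : i ≠ j)
    (hjk : j ≠ k) (hik : i ≠ k) (y1 y2 y3 : ℝ) :
    ∃ a' : ι → ℝ, (∑ l, a' l = ∑ l ∈ {i, j, k}ᶜ, a l + (y1 + y2 + y3)) ∧
      (∑ l, a' l ^ 2 = ∑ l ∈ {i, j, k}ᶜ, a l ^ 2 + (y1 ^ 2 + y2 ^ 2 + y3 ^ 2)) ∧
      ∀ s : ℝ, ∏ l, (1 + a' l ^ 2 * s ^ 2)⁻¹ = (∏ l ∈ {i, j, k}ᶜ, (1 + a l ^ 2 * s ^ 2)⁻¹) *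
        ((1 + y1 ^ 2 * s ^ 2) * (1 + y2 ^ 2 * s ^ 2) * (1 + y3 ^ 2 * s ^ 2))⁻¹ := by
  set a' : ι → ℝ := fun l => if l = i then y1 else if l = j then y2 else if l = k then y3 else a l
    with ha'
  have h1 : a' i = y1 := by simp [ha']
  have h2 : a' j = y2 := by simp [ha', hij.symm]
  have h3 : a' k = y3 := by simp [ha', hik.symm, hjk.symm]
  have h4 : ∀ l ∈ ({i, j, k}ᶜ : Finset ι), a' l = a l := by
    intro l hl
    simp only [Finset.mem_compl, Finset.mem_insert, Finset.mem_singleton, not_or] at hl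
    simp [ha', hl.1, hl.2.1, hl.2.2]
  have hi : i ∉ ({j, k} : Finset ι) := by simp [hij, hik]
  have hj : j ∉ ({k} : Finset ι) := by simp [hjk]
  refine ⟨a', ?_, ?_, ?_⟩
  · rw [← Finset.sum_compl_add_sum {i, j, k} a', Finset.sum_congr rfl h4, Finset.sum_insert hi,
      Finset.sum_insert hj, Finset.sum_singleton, h1, h2, h3]
    ring
  · rw [← Finset.sum_compl_add_sum {i, j, k} (fun l => a' l ^ 2),
      Finset.sum_congr rfl (fun l hl => by rw [h4 l hl]), Finset.sum_insert hi,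
      Finset.sum_insert hj, Finset.sum_singleton, h1, h2, h3]
    ring
  · intro s
    rw [← Finset.prod_compl_mul_prod {i, j, k} (fun l => (1 + a' l ^ 2 * s ^ 2)⁻¹),
      Finset.prod_congr rfl (fun l hl => by rw [h4 l hl]), Finset.prod_insert hi,
      Finset.prod_insert hj, Finset.prod_singleton, h1, h2, h3, mul_inv, mul_inv]
    ring

theorem split_three {ι : Type*} [Fintype ι] [DecidableEq ι] (a : ι → ℝ) {i j k : ι} (hij : i ≠ j)
    (hjk : j ≠ k) (hik : i ≠ k) :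
    (∑ l, a l = ∑ l ∈ {i, j, k}ᶜ, a l + (a i + a j + a k)) ∧
      (∑ l, a l ^ 2 = ∑ l ∈ {i, j, k}ᶜ, a l ^ 2 + (a i ^ 2 + a j ^ 2 + a k ^ 2)) ∧
      ∀ s : ℝ, ∏ l, (1 + a l ^ 2 * s ^ 2)⁻¹ = (∏ l ∈ {i, j, k}ᶜ, (1 + a l ^ 2 * s ^ 2)⁻¹) *
        ((1 + a i ^ 2 * s ^ 2) * (1 + a j ^ 2 * s ^ 2) * (1 + a k ^ 2 * s ^ 2))⁻¹ := by
  have hi : i ∉ ({j, k} : Finset ι) := by simp [hij, hik]
  have hj : j ∉ ({k} : Finset ι) := by simp [hjk]
  refine ⟨?_, ?_, ?_⟩
  · rw [← Finset.sum_compl_add_sum {i, j, k} a, Finset.sum_insert hi,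
      Finset.sum_insert hj, Finset.sum_singleton]
    ring
  · rw [← Finset.sum_compl_add_sum {i, j, k} (fun l => a l ^ 2), Finset.sum_insert hi,
      Finset.sum_insert hj, Finset.sum_singleton]
    ring
  · intro s
    rw [← Finset.prod_compl_mul_prod {i, j, k} (fun l => (1 + a l ^ 2 * s ^ 2)⁻¹),
      Finset.prod_insert hi, Finset.prod_insert hj, Finset.prod_singleton, mul_inv, mul_inv]
    ring

end Pool.Agent.Helper52.CP
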