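import Mathlib

namespace Pool.Agent.Helper52.CP

open Set MeasureTheory Filter Topology

section
variable (m : ℕ)

/-- quadratic factor -/
def AA (β x : ℝ) : ℝ := (1 + x) ^ 2 + (m : ℝ) ^ 2 * β * x

/-- linear factor -/
def BBf (β x : ℝ) : ℝ := 1 + β * x

/-- integrand -/
noncomputable def gg (β σ : ℝ) : ℝ := (AA m β (σ ^ 2) * BBf β (σ ^ 2) ^ m)⁻¹

/-- derivative weight -/
noncomputable def ww (β x : ℝ) : ℝ := (AA m β x ^ 2 * BBf β x ^ (m + 1))⁻¹

/-- the integral -/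
noncomputable def II (β : ℝ) : ℝ := ∫ σ in Ioi (0 : ℝ), gg m β σ

/-- the one-parameter function -/
noncomputable def HH (β : ℝ) : ℝ := Real.sqrt (2 + m * (m + 1) * β) * II m β

/-- the sign integral -/
noncomputable def JJ (β : ℝ) : ℝ := ∫ σ in Ioi (0 : ℝ),
  σ ^ 4 * ((m - 1 : ℝ) - σ ^ 2) * ww m β (σ ^ 2)

end

variable {m : ℕ}

theorem AA_pos {β x : ℝ} (hβ : 0 ≤ β) (hx : 0 ≤ x) : 0 < AA m β x := by
  unfold AA; positivity

theorem AA_ge {β x : ℝ} (hβ : 0 ≤ β) (hx : 0 ≤ x) : (1 + x) ^ 2 ≤ AA m β x := by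
  unfold AA
  have : 0 ≤ (m : ℝ) ^ 2 * β * x := by positivity
  linarith

theorem BB_pos {β x : ℝ} (hβ : 0 ≤ β) (hx : 0 ≤ x) : 0 < BBf β x := by
  unfold BBf; positivity

theorem BB_ge {β x : ℝ} (hβ : 0 ≤ β) (hx : 0 ≤ x) : 1 ≤ BBf β x := by
  unfold BBf
  have : 0 ≤ β * x := by positivity
  linarith

theorem gg_pos {β σ : ℝ} (hβ : 0 ≤ β) : 0 < gg m β σ := by
  unfold gg
  have := AA_pos (m := m) hβ (sq_nonneg σ)
  have := BB_pos hβ (sq_nonneg σ)
  positivity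

theorem gg_le {β σ : ℝ} (hβ : 0 ≤ β) : gg m β σ ≤ (1 + σ ^ 2)⁻¹ := by
  unfold gg
  apply inv_anti₀ (by positivity)
  have h1 := AA_ge (m := m) hβ (sq_nonneg σ)
  have h2 := one_le_pow₀ (n := m) (BB_ge hβ (sq_nonneg σ))
  have h3 : (1 + σ ^ 2) ≤ (1 + σ ^ 2) ^ 2 := by nlinarith [sq_nonneg σ]
  have h4 : 0 ≤ AA m β (σ ^ 2) := (AA_pos hβ (sq_nonneg σ)).le
  calc 1 + σ ^ 2 ≤ AA m β (σ ^ 2) * 1 := by linarith
    _ ≤ _ := mul_le_mul_of_nonneg_left h2 h4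

theorem continuous_gg {β : ℝ} (hβ : 0 ≤ β) : Continuous (gg m β) := by
  unfold gg
  apply Continuous.inv₀
  · unfold AA BBf; fun_prop
  · intro σ
    have := AA_pos (m := m) hβ (sq_nonneg σ)
    have := BB_pos hβ (sq_nonneg σ)
    positivity

theorem gg_integrable {β : ℝ} (hβ : 0 ≤ β) : IntegrableOn (gg m β) (Ioi 0) := by
  apply Integrable.mono' integrable_inv_one_add_sq.integrableOn
    (continuous_gg hβ).aestronglyMeasurable
  filter_upwards with σ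
  rw [Real.norm_of_nonneg (gg_pos hβ).le]
  exact gg_le hβ

theorem continuousOn_II : ContinuousOn (II m) (Ici 0) := by
  unfold II
  apply continuousOn_of_dominated (bound := fun s => (1 + s ^ 2)⁻¹)
  · intro β hβ
    exact (continuous_gg hβ).aestronglyMeasurable
  · intro β hβ
    filter_upwards with s
    rw [Real.norm_of_nonneg (gg_pos hβ).le]
    exact gg_le hβ
  · exact integrable_inv_one_add_sq.integrableOn
  · filter_upwards with s
    unfold gg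
    apply ContinuousOn.inv₀
    · apply Continuous.continuousOn
      unfold AA BBf; fun_prop
    · intro β hβ
      have := AA_pos (m := m) hβ (sq_nonneg s)
      have := BB_pos hβ (sq_nonneg s)
      positivity

/-- derivative of the integrand in the parameter -/
noncomputable def gd (m : ℕ) (β σ : ℝ) : ℝ :=
  -((m : ℝ) ^ 2 * σ ^ 2 * BBf β (σ ^ 2) + m * σ ^ 2 * AA m β (σ ^ 2)) * ww m β (σ ^ 2)

theorem hasDerivAt_gg {β : ℝ} (hβ : 0 ≤ β) (σ : ℝ) :
    HasDerivAt (fun β => gg m β σ) (gd m β σ) β := by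
  have hA := AA_pos (m := m) hβ (sq_nonneg σ)
  have hB := BB_pos hβ (sq_nonneg σ)
  have dA : HasDerivAt (fun β => AA m β (σ ^ 2)) ((m : ℝ) ^ 2 * σ ^ 2) β := by
    unfold AA
    have := ((hasDerivAt_id β).const_mul ((m : ℝ) ^ 2)).mul_const (σ ^ 2)
    have := this.const_add ((1 + σ ^ 2) ^ 2)
    simpa using this
  have dB : HasDerivAt (fun β => BBf β (σ ^ 2)) (σ ^ 2) β := by
    unfold BBf
    have := ((hasDerivAt_id β).mul_const (σ ^ 2)).const_add 1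
    simpa using this
  have h := (dA.mul (dB.pow m)).inv (mul_pos hA (pow_pos hB m)).ne'
  have e : gd m β σ = -((m : ℝ) ^ 2 * σ ^ 2 * BBf β (σ ^ 2) ^ m + AA m β (σ ^ 2) *
      (m * BBf β (σ ^ 2) ^ (m - 1) * σ ^ 2)) / (AA m β (σ ^ 2) * BBf β (σ ^ 2) ^ m) ^ 2 := by
    unfold gd ww
    rcases Nat.eq_zero_or_pos m with h0 | h0
    · subst h0
      simp
    · obtain ⟨k, rfl⟩ : ∃ k, m = k + 1 := ⟨m - 1, by omega⟩
      simp only [Nat.add_sub_cancel]
      have hA' := hA.ne'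
      have hB' := hB.ne'
      field_simp
      ring
  rw [e]
  exact h

theorem gd_bound {β : ℝ} (hβ : 0 ≤ β) (σ : ℝ) :
    ‖gd m β σ‖ ≤ ((m : ℝ) ^ 2 + m) * (1 + σ ^ 2)⁻¹ := by
  have hx : 0 ≤ σ ^ 2 := sq_nonneg σ
  have hA := AA_pos (m := m) hβ hx
  have hB := BB_pos hβ hx
  have hA1 := AA_ge (m := m) hβ hx
  have hB1 := BB_ge hβ hx
  unfold gd
  rw [neg_mul, norm_neg, Real.norm_of_nonneg (by unfold ww; positivity)]
  unfold ww
  have hBm : 1 ≤ BBf β (σ ^ 2) ^ m := one_le_pow₀ hB1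
  have hBm1 : 1 ≤ BBf β (σ ^ 2) ^ (m + 1) := one_le_pow₀ hB1
  rw [← div_eq_mul_inv, ← div_eq_mul_inv, add_div, add_div]
  apply add_le_add
  · rw [div_le_div_iff₀ (by positivity) (by positivity)]
    rw [mul_assoc, mul_assoc]
    apply mul_le_mul_of_nonneg_left _ (by positivity)
    have h1 : σ ^ 2 * (1 + σ ^ 2) ≤ AA m β (σ ^ 2) ^ 2 := by
      have h2 : 1 ≤ AA m β (σ ^ 2) := by nlinarith
      have h3 : AA m β (σ ^ 2) ≤ AA m β (σ ^ 2) ^ 2 := by nlinarith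
      nlinarith
    have h4 : BBf β (σ ^ 2) ≤ BBf β (σ ^ 2) ^ (m + 1) := by
      rw [pow_succ]
      exact le_mul_of_one_le_left hB.le hBm
    calc σ ^ 2 * (BBf β (σ ^ 2) * (1 + σ ^ 2)) = (σ ^ 2 * (1 + σ ^ 2)) * BBf β (σ ^ 2) := by ring
      _ ≤ AA m β (σ ^ 2) ^ 2 * BBf β (σ ^ 2) ^ (m + 1) :=
        mul_le_mul h1 h4 hB.le (by positivity)
  · rw [div_le_div_iff₀ (by positivity) (by positivity)]
    rw [mul_assoc, mul_assoc]
    apply mul_le_mul_of_nonneg_left _ (by positivity)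
    have h1 : σ ^ 2 * (1 + σ ^ 2) ≤ AA m β (σ ^ 2) := by nlinarith
    calc σ ^ 2 * (AA m β (σ ^ 2) * (1 + σ ^ 2)) = (σ ^ 2 * (1 + σ ^ 2)) * AA m β (σ ^ 2) := by ring
      _ ≤ AA m β (σ ^ 2) * AA m β (σ ^ 2) := mul_le_mul_of_nonneg_right h1 hA.le
      _ = AA m β (σ ^ 2) ^ 2 * 1 := by ring
      _ ≤ AA m β (σ ^ 2) ^ 2 * BBf β (σ ^ 2) ^ (m + 1) :=
        mul_le_mul_of_nonneg_left hBm1 (by positivity)

theorem continuous_ww {β : ℝ} (hβ : 0 ≤ β) : Continuous fun σ : ℝ => ww m β (σ ^ 2) := by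
  unfold ww
  apply Continuous.inv₀
  · unfold AA BBf; fun_prop
  · intro σ
    have := AA_pos (m := m) hβ (sq_nonneg σ)
    have := BB_pos hβ (sq_nonneg σ)
    positivity

theorem hasDerivAt_II {β : ℝ} (hβ : 0 < β) :
    IntegrableOn (gd m β) (Ioi 0) ∧
      HasDerivAt (II m) (∫ σ in Ioi (0 : ℝ), gd m β σ) β := by
  have hnb : Ioi (0 : ℝ) ∈ 𝓝 β := Ioi_mem_nhds hβ
  apply hasDerivAt_integral_of_dominated_loc_of_deriv_le hnb
    (bound := fun s => ((m : ℝ) ^ 2 + m) * (1 + s ^ 2)⁻¹)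
  · filter_upwards [hnb] with b hb
    exact (continuous_gg (le_of_lt hb)).aestronglyMeasurable
  · exact gg_integrable hβ.le
  · apply Continuous.aestronglyMeasurable
    unfold gd
    apply Continuous.mul _ (continuous_ww hβ.le)
    unfold AA BBf; fun_prop
  · filter_upwards with s b hb
    exact gd_bound (le_of_lt hb) s
  · exact integrable_inv_one_add_sq.integrableOn.const_mul _
  · filter_upwards with s b hb
    exact hasDerivAt_gg (le_of_lt hb) s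

/-- the polynomial identity behind the derivative formula -/
theorem poly_id (μ β x : ℝ) :
    μ * (μ + 1) / 2 * (((1 + x) ^ 2 + μ ^ 2 * β * x) * (1 + β * x)) -
      (2 + μ * (μ + 1) * β) * (μ ^ 2 * x * (1 + β * x) + μ * x * ((1 + x) ^ 2 + μ ^ 2 * β * x)) =
    2 * μ * (1 - (μ + 1) * β) * (x ^ 2 * ((μ - 1) - x)) +
      μ * (μ + 1) / 2 * (((1 + x) ^ 2 + μ ^ 2 * β * x) * (1 + β * x) -
        2 * x * (2 * (1 + x) + μ ^ 2 * β) * (1 + β * x) -
          2 * μ * x * β * ((1 + x) ^ 2 + μ ^ 2 * β * x)) := by ring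

/-- the boundary term integrand -/
noncomputable def bt (m : ℕ) (β σ : ℝ) : ℝ :=
  (AA m β (σ ^ 2) * BBf β (σ ^ 2) - 2 * σ ^ 2 * (2 * (1 + σ ^ 2) + (m : ℝ) ^ 2 * β) *
    BBf β (σ ^ 2) - 2 * m * σ ^ 2 * β * AA m β (σ ^ 2)) * ww m β (σ ^ 2)

theorem hasDerivAt_bt {β : ℝ} (hβ : 0 ≤ β) (σ : ℝ) :
    HasDerivAt (fun σ => σ * gg m β σ) (bt m β σ) σ := by
  have hA := AA_pos (m := m) hβ (sq_nonneg σ)
  have hB := BB_pos hβ (sq_nonneg σ)
  have d2 : HasDerivAt (fun σ : ℝ => σ ^ 2) (2 * σ) σ := by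
    simpa using hasDerivAt_pow 2 σ
  have dA : HasDerivAt (fun σ => AA m β (σ ^ 2))
      (2 * (1 + σ ^ 2) * (2 * σ) + (m : ℝ) ^ 2 * β * (2 * σ)) σ := by
    unfold AA
    have h1 := (d2.const_add 1).pow 2
    have h2 := d2.const_mul ((m : ℝ) ^ 2 * β)
    refine (h1.add h2).congr_deriv ?_
    norm_num
  have dB : HasDerivAt (fun σ => BBf β (σ ^ 2)) (β * (2 * σ)) σ := by
    unfold BBf
    exact (d2.const_mul β).const_add 1
  have h := (hasDerivAt_id σ).mul ((dA.mul (dB.pow m)).inv (mul_pos hA (pow_pos hB m)).ne')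
  have e : bt m β σ = 1 * (AA m β (σ ^ 2) * BBf β (σ ^ 2) ^ m)⁻¹ + σ *
      (-((2 * (1 + σ ^ 2) * (2 * σ) + (m : ℝ) ^ 2 * β * (2 * σ)) * BBf β (σ ^ 2) ^ m +
        AA m β (σ ^ 2) * (m * BBf β (σ ^ 2) ^ (m - 1) * (β * (2 * σ)))) /
          (AA m β (σ ^ 2) * BBf β (σ ^ 2) ^ m) ^ 2) := by
    unfold bt ww
    rcases Nat.eq_zero_or_pos m with h0 | h0
    · subst h0
      have hA' := hA.ne'
      have hB' := hB.ne'
      simp only [Nat.cast_zero, zero_add, pow_one, pow_zero]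
      field_simp
      ring
    · obtain ⟨k, rfl⟩ : ∃ k, m = k + 1 := ⟨m - 1, by omega⟩
      simp only [Nat.add_sub_cancel]
      have hA' := hA.ne'
      have hB' := hB.ne'
      field_simp
      ring
  rw [e]
  exact h

theorem gd_integrable {β : ℝ} (hβ : 0 < β) : IntegrableOn (gd m β) (Ioi 0) :=
  (hasDerivAt_II hβ).1

theorem ww_pos {β x : ℝ} (hβ : 0 ≤ β) (hx : 0 ≤ x) : 0 < ww m β x := by
  unfold ww
  have := AA_pos (m := m) hβ hx
  have := BB_pos hβ hx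
  positivity

theorem ww_le {β x : ℝ} (hβ : 0 ≤ β) (hx : 0 ≤ x) : ww m β x ≤ ((1 + x) ^ 4)⁻¹ := by
  unfold ww
  apply inv_anti₀ (by positivity)
  have hA1 := AA_ge (m := m) hβ hx
  have hBm1 : 1 ≤ BBf β x ^ (m + 1) := one_le_pow₀ (BB_ge hβ hx)
  calc (1 + x) ^ 4 = ((1 + x) ^ 2) ^ 2 * 1 := by ring
    _ ≤ AA m β x ^ 2 * BBf β x ^ (m + 1) := by
      apply mul_le_mul (pow_le_pow_left₀ (by positivity) hA1 2) hBm1 zero_le_one
      have := AA_pos (m := m) hβ hx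
      positivity

theorem jj_integrable {β : ℝ} (hβ : 0 ≤ β) : IntegrableOn (fun σ : ℝ =>
    σ ^ 4 * ((m - 1 : ℝ) - σ ^ 2) * ww m β (σ ^ 2)) (Ioi 0) := by
  apply Integrable.mono' (g := fun σ : ℝ => (m + 1 : ℝ) * (1 + σ ^ 2)⁻¹)
    (integrable_inv_one_add_sq.integrableOn.const_mul _)
  · apply Continuous.aestronglyMeasurable
    exact (by fun_prop : Continuous fun σ : ℝ => σ ^ 4 * ((m - 1 : ℝ) - σ ^ 2)).mul
      (continuous_ww hβ)
  · filter_upwards with σ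
    have hx : 0 ≤ σ ^ 2 := sq_nonneg σ
    rw [norm_mul, Real.norm_of_nonneg (ww_pos hβ hx).le, norm_mul,
      Real.norm_of_nonneg (by positivity : 0 ≤ σ ^ 4), Real.norm_eq_abs]
    have h1 : |(m - 1 : ℝ) - σ ^ 2| ≤ (m + 1) * (1 + σ ^ 2) := by
      have hm : (0 : ℝ) ≤ m := by positivity
      rw [abs_le]
      constructor <;> nlinarith [mul_nonneg hm hx]
    have h2 := ww_le (m := m) hβ hx
    calc σ ^ 4 * |(m - 1 : ℝ) - σ ^ 2| * ww m β (σ ^ 2)
        ≤ σ ^ 4 * ((m + 1) * (1 + σ ^ 2)) * ((1 + σ ^ 2) ^ 4)⁻¹ := by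
          apply mul_le_mul _ h2 (ww_pos hβ hx).le (by positivity)
          exact mul_le_mul_of_nonneg_left h1 (by positivity)
      _ = (m + 1) * (σ ^ 4 * ((1 + σ ^ 2) ^ 3)⁻¹) := by
          have : (1 + σ ^ 2) ≠ 0 := by positivity
          field_simp
      _ ≤ (m + 1) * (1 + σ ^ 2)⁻¹ := by
          apply mul_le_mul_of_nonneg_left _ (by positivity)
          rw [← div_eq_mul_inv, inv_eq_one_div, div_le_div_iff₀ (by positivity) (by positivity)]
          nlinarith [sq_nonneg (σ ^ 2)]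

theorem bt_eq {β : ℝ} (σ : ℝ) :
    (m : ℝ) * (m + 1) / 2 * gg m β σ * 1 + 0 = m * (m + 1) / 2 * gg m β σ := by ring

/-- pointwise form of the derivative identity -/
theorem pointwise_id {β : ℝ} (hβ : 0 ≤ β) (σ : ℝ) :
    (m : ℝ) * (m + 1) / 2 * gg m β σ + (2 + m * (m + 1) * β) * gd m β σ =
      2 * m * (1 - (m + 1) * β) * (σ ^ 4 * ((m - 1 : ℝ) - σ ^ 2) * ww m β (σ ^ 2)) +
        m * (m + 1) / 2 * bt m β σ := by
  have hA := AA_pos (m := m) hβ (sq_nonneg σ)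
  have hB := BB_pos hβ (sq_nonneg σ)
  have hg : gg m β σ = AA m β (σ ^ 2) * BBf β (σ ^ 2) * ww m β (σ ^ 2) := by
    unfold gg ww
    field_simp
    ring
  have hp := poly_id (m : ℝ) β (σ ^ 2)
  rw [hg]
  unfold gd bt
  have hAe : AA m β (σ ^ 2) = (1 + σ ^ 2) ^ 2 + (m : ℝ) ^ 2 * β * σ ^ 2 := rfl
  have hBe : BBf β (σ ^ 2) = 1 + β * σ ^ 2 := rfl
  rw [← hAe, ← hBe] at hp
  linear_combination (ww m β (σ ^ 2)) * hp

theorem bt_integrable {β : ℝ} (hβ : 0 < β) (hm : 0 < m) : IntegrableOn (bt m β) (Ioi 0) := by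
  have h1 := ((gg_integrable (m := m) hβ.le).const_mul ((m : ℝ) * (m + 1) / 2)).add
    ((gd_integrable (m := m) hβ).const_mul (2 + m * (m + 1) * β))
  have h2 := (jj_integrable (m := m) hβ.le).const_mul (2 * m * (1 - (m + 1) * β))
  have h3 := (h1.sub h2).const_mul ((m : ℝ) * (m + 1) / 2)⁻¹
  refine h3.congr ?_
  filter_upwards with σ
  have hp := pointwise_id (m := m) hβ.le σ
  have hm' : (0 : ℝ) < m := by exact_mod_cast hm
  simp only [Pi.sub_apply, Pi.add_apply]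
  rw [inv_mul_eq_div, div_eq_iff (by positivity)]
  linear_combination hp

theorem tendsto_bt {β : ℝ} (hβ : 0 ≤ β) :
    Tendsto (fun σ => σ * gg m β σ) atTop (𝓝 0) := by
  apply squeeze_zero_norm' (a := fun σ : ℝ => σ⁻¹) _ tendsto_inv_atTop_zero
  filter_upwards [eventually_gt_atTop 0] with σ hσ
  rw [norm_mul, Real.norm_of_nonneg hσ.le, Real.norm_of_nonneg (gg_pos hβ).le]
  calc σ * gg m β σ ≤ σ * (1 + σ ^ 2)⁻¹ := mul_le_mul_of_nonneg_left (gg_le hβ) hσ.le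
    _ ≤ σ⁻¹ := by
      rw [← div_eq_mul_inv, inv_eq_one_div, div_le_div_iff₀ (by positivity) hσ]
      nlinarith

theorem bt_integral {β : ℝ} (hβ : 0 < β) (hm : 0 < m) : ∫ σ in Ioi (0 : ℝ), bt m β σ = 0 := by
  rw [integral_Ioi_of_hasDerivAt_of_tendsto' (fun σ _ => hasDerivAt_bt hβ.le σ)
    (bt_integrable hβ hm) (tendsto_bt hβ.le)]
  simp

/-- derivative of the one-parameter function -/
theorem hasDerivAt_HH {β : ℝ} (hβ : 0 < β) (hm : 0 < m) :
    HasDerivAt (HH m) ((Real.sqrt (2 + m * (m + 1) * β))⁻¹ *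
      (2 * m * (1 - (m + 1) * β) * JJ m β)) β := by
  have hN : 0 < 2 + (m : ℝ) * (m + 1) * β := by positivity
  have d1 : HasDerivAt (fun β : ℝ => 2 + (m : ℝ) * (m + 1) * β) ((m : ℝ) * (m + 1)) β := by
    simpa using ((hasDerivAt_id β).const_mul ((m : ℝ) * (m + 1))).const_add 2
  have d2 := d1.sqrt hN.ne'
  obtain ⟨hi, d3⟩ := hasDerivAt_II (m := m) hβ
  have h := d2.mul d3
  refine h.congr_deriv ?_
  set N := Real.sqrt (2 + m * (m + 1) * β) with hNdef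
  have hN2 : N ^ 2 = 2 + m * (m + 1) * β := Real.sq_sqrt hN.le
  have hNpos : 0 < N := Real.sqrt_pos.2 hN
  have hint : (m : ℝ) * (m + 1) / 2 * II m β + (2 + m * (m + 1) * β) *
      ∫ σ in Ioi (0 : ℝ), gd m β σ = 2 * m * (1 - (m + 1) * β) * JJ m β := by
    have e1 : ∫ σ in Ioi (0 : ℝ), ((m : ℝ) * (m + 1) / 2 * gg m β σ +
        (2 + m * (m + 1) * β) * gd m β σ) = ∫ σ in Ioi (0 : ℝ),
        (2 * m * (1 - (m + 1) * β) * (σ ^ 4 * ((m - 1 : ℝ) - σ ^ 2) * ww m β (σ ^ 2)) +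
        m * (m + 1) / 2 * bt m β σ) := by
      congr 1
      funext σ
      exact pointwise_id hβ.le σ
    rw [integral_add ((gg_integrable hβ.le).const_mul _) (hi.const_mul _),
      integral_add ((jj_integrable hβ.le).const_mul _) ((bt_integrable hβ hm).const_mul _),
      integral_const_mul, integral_const_mul, integral_const_mul, integral_const_mul,
      bt_integral hβ hm, mul_zero, add_zero] at e1
    exact e1
  rw [← hint]
  have hN0 := hNpos.ne'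
  field_simp
  rw [hN2]
  ring

end Pool.Agent.Helper52.CP
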