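import Pool.Agent.Helper52.CP.Family

namespace Pool.Agent.Helper52.CP

open Set MeasureTheory Filter Topology

variable {m : ℕ}

theorem log_ww {β x : ℝ} (hβ : 0 ≤ β) (hx : 0 ≤ x) : Real.log (ww m β x) =
    -(2 * Real.log (AA m β x) + (m + 1) * Real.log (BBf β x)) := by
  have hA := AA_pos (m := m) hβ hx
  have hB := BB_pos hβ hx
  unfold ww
  rw [Real.log_inv, Real.log_mul (by positivity) (by positivity), Real.log_pow, Real.log_pow]
  push_cast
  ring

theorem hasDerivAt_log {β x : ℝ} (hβ : 0 ≤ β) (hx : 0 ≤ x) :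
    HasDerivAt (fun β => -(2 * Real.log (AA m β x) + (m + 1) * Real.log (BBf β x)))
      (-(2 * ((m : ℝ) ^ 2 * x / AA m β x) + (m + 1) * (x / BBf β x))) β := by
  have hA := AA_pos (m := m) hβ hx
  have hB := BB_pos hβ hx
  have dA : HasDerivAt (fun β => AA m β x) ((m : ℝ) ^ 2 * x) β := by
    unfold AA
    have := (((hasDerivAt_id β).const_mul ((m : ℝ) ^ 2)).mul_const x).const_add ((1 + x) ^ 2)
    simpa using this
  have dB : HasDerivAt (fun β => BBf β x) x β := by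
    unfold BBf
    have := ((hasDerivAt_id β).mul_const x).const_add 1
    simpa using this
  exact (((dA.log hA.ne').const_mul 2).add ((dB.log hB.ne').const_mul ((m : ℝ) + 1))).neg

/-- key inequality: derivative comparison with the point `m - 1` -/
theorem deriv_diff {β x : ℝ} (hβ : 0 ≤ β) (hx : 0 ≤ x) (hm : 0 < m) :
    -(2 * ((m : ℝ) ^ 2 * x / AA m β x) + (m + 1) * (x / BBf β x)) -
      -(2 * ((m : ℝ) ^ 2 * (m - 1 : ℝ) / AA m β (m - 1 : ℝ)) +
        (m + 1) * ((m - 1 : ℝ) / BBf β (m - 1 : ℝ))) =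
    ((m - 1 : ℝ) - x) * (((m + 1 : ℝ) * AA m β x - 2 * ((m - 1 : ℝ) * x - 1) * BBf β x) /
      (BBf β (m - 1 : ℝ) * AA m β x * BBf β x)) := by
  have hm1 : (1 : ℝ) ≤ m := by exact_mod_cast hm
  have hA := AA_pos (m := m) hβ hx
  have hB := BB_pos hβ hx
  have hB1 : 0 < BBf β (m - 1 : ℝ) := BB_pos hβ (by linarith)
  have hA1 : AA m β (m - 1 : ℝ) = (m : ℝ) ^ 2 * BBf β (m - 1 : ℝ) := by
    unfold AA BBf; ring
  have hm0 : (m : ℝ) ≠ 0 := by positivity
  rw [hA1]
  have hA' := hA.ne'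
  have hB' := hB.ne'
  have hB1' := hB1.ne'
  field_simp
  unfold AA BBf
  ring

theorem bracket_nonneg {β x : ℝ} (hβ : 0 ≤ β) (hβ1 : β * (m + 1) ≤ 1) (hx : 0 ≤ x)
    (hm : 0 < m) : 0 ≤ ((m + 1 : ℝ) * AA m β x - 2 * ((m - 1 : ℝ) * x - 1) * BBf β x) /
      (BBf β (m - 1 : ℝ) * AA m β x * BBf β x) := by
  have hm1 : (1 : ℝ) ≤ m := by exact_mod_cast hm
  have hA := AA_pos (m := m) hβ hx
  have hB := BB_pos hβ hx
  have hB1 : 0 < BBf β (m - 1 : ℝ) := BB_pos hβ (by linarith)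
  apply div_nonneg _ (by positivity)
  have e : (m + 1 : ℝ) * AA m β x - 2 * ((m - 1 : ℝ) * x - 1) * BBf β x =
      x ^ 2 * ((m + 1 : ℝ) - 2 * (m - 1 : ℝ) * β) +
      x * (4 + ((m + 1 : ℝ) * (m : ℝ) ^ 2 + 2) * β) + ((m : ℝ) + 3) := by
    unfold AA BBf; ring
  rw [e]
  have h1 : 0 ≤ (m + 1 : ℝ) - 2 * (m - 1 : ℝ) * β := by
    have h2 : (m - 1 : ℝ) * β ≤ (m + 1) * β := mul_le_mul_of_nonneg_right (by linarith) hβ
    nlinarith
  positivity

theorem ww_ratio {β1 β2 x : ℝ} (h1 : 0 ≤ β1) (h12 : β1 ≤ β2) (h2 : β2 * (m + 1) ≤ 1)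
    (hx : 0 ≤ x) (hm : 0 < m) :
    (x ≤ (m - 1 : ℝ) → ww m β1 x * ww m β2 (m - 1) ≤ ww m β2 x * ww m β1 (m - 1)) ∧
    ((m - 1 : ℝ) ≤ x → ww m β2 x * ww m β1 (m - 1) ≤ ww m β1 x * ww m β2 (m - 1)) := by
  have hm1 : (1 : ℝ) ≤ m := by exact_mod_cast hm
  have hm2 : (0 : ℝ) ≤ m - 1 := by linarith
  have h20 : 0 ≤ β2 := h1.trans h12
  set φ : ℝ → ℝ := fun β => -(2 * Real.log (AA m β x) + (m + 1) * Real.log (BBf β x)) -
    -(2 * Real.log (AA m β (m - 1 : ℝ)) + (m + 1) * Real.log (BBf β (m - 1 : ℝ))) with hφ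
  have hd : ∀ β, 0 ≤ β → HasDerivAt φ (((m - 1 : ℝ) - x) *
      (((m + 1 : ℝ) * AA m β x - 2 * ((m - 1 : ℝ) * x - 1) * BBf β x) /
      (BBf β (m - 1 : ℝ) * AA m β x * BBf β x))) β := by
    intro β hβ
    rw [← deriv_diff hβ hx hm]
    exact (hasDerivAt_log hβ hx).sub (hasDerivAt_log hβ hm2)
  have hc : ContinuousOn φ (Icc β1 β2) := fun β hβ =>
    (hd β (h1.trans hβ.1)).continuousAt.continuousWithinAt
  have hφ1 : φ β1 = Real.log (ww m β1 x) - Real.log (ww m β1 (m - 1)) := by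
    rw [log_ww h1 hx, log_ww h1 hm2]
  have hφ2 : φ β2 = Real.log (ww m β2 x) - Real.log (ww m β2 (m - 1)) := by
    rw [log_ww h20 hx, log_ww h20 hm2]
  have p1 := ww_pos (m := m) h1 hx
  have p2 := ww_pos (m := m) h20 hx
  have p3 := ww_pos (m := m) h1 hm2
  have p4 := ww_pos (m := m) h20 hm2
  constructor
  · intro hxm
    have hmono : MonotoneOn φ (Icc β1 β2) := by
      apply monotoneOn_of_deriv_nonneg (convex_Icc _ _) hc
      · rw [interior_Icc]
        intro β hβ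
        exact (hd β (h1.trans hβ.1.le)).differentiableAt.differentiableWithinAt
      · rw [interior_Icc]
        intro β hβ
        rw [(hd β (h1.trans hβ.1.le)).deriv]
        apply mul_nonneg (by linarith)
        apply bracket_nonneg (h1.trans hβ.1.le) _ hx hm
        refine le_trans ?_ h2
        exact mul_le_mul_of_nonneg_right hβ.2.le (by positivity)
    have h := hmono ⟨le_rfl, h12⟩ ⟨h12, le_rfl⟩ h12
    rw [hφ1, hφ2] at h
    rw [← Real.log_le_log_iff (mul_pos p1 p4) (mul_pos p2 p3), Real.log_mul p1.ne' p4.ne',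
      Real.log_mul p2.ne' p3.ne']
    linarith
  · intro hxm
    have hanti : AntitoneOn φ (Icc β1 β2) := by
      apply antitoneOn_of_deriv_nonpos (convex_Icc _ _) hc
      · rw [interior_Icc]
        intro β hβ
        exact (hd β (h1.trans hβ.1.le)).differentiableAt.differentiableWithinAt
      · rw [interior_Icc]
        intro β hβ
        rw [(hd β (h1.trans hβ.1.le)).deriv]
        apply mul_nonpos_of_nonpos_of_nonneg (by linarith)
        apply bracket_nonneg (h1.trans hβ.1.le) _ hx hm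
        refine le_trans ?_ h2
        exact mul_le_mul_of_nonneg_right hβ.2.le (by positivity)
    have h := hanti ⟨le_rfl, h12⟩ ⟨h12, le_rfl⟩ h12
    rw [hφ1, hφ2] at h
    rw [← Real.log_le_log_iff (mul_pos p2 p3) (mul_pos p1 p4), Real.log_mul p1.ne' p4.ne',
      Real.log_mul p2.ne' p3.ne']
    linarith

/-- single crossing -/
theorem JJ_nonneg_of {β1 β2 : ℝ} (h1 : 0 ≤ β1) (h12 : β1 ≤ β2) (h2 : β2 * (m + 1) ≤ 1)
    (hm : 0 < m) (hJ : 0 ≤ JJ m β1) : 0 ≤ JJ m β2 := by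
  have hm1 : (1 : ℝ) ≤ m := by exact_mod_cast hm
  have hm2 : (0 : ℝ) ≤ m - 1 := by linarith
  have h20 : 0 ≤ β2 := h1.trans h12
  have p3 := ww_pos (m := m) h1 hm2
  have p4 := ww_pos (m := m) h20 hm2
  have key : ww m β2 (m - 1) * JJ m β1 ≤ ww m β1 (m - 1) * JJ m β2 := by
    unfold JJ
    rw [← integral_const_mul, ← integral_const_mul]
    apply setIntegral_mono_on ((jj_integrable h1).const_mul _)
      ((jj_integrable h20).const_mul _) measurableSet_Ioi
    intro σ _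
    have hx : 0 ≤ σ ^ 2 := sq_nonneg σ
    obtain ⟨r1, r2⟩ := ww_ratio h1 h12 h2 hx hm
    have h4 : 0 ≤ σ ^ 4 := by positivity
    rcases le_total (σ ^ 2) (m - 1 : ℝ) with h | h
    · have h5 : 0 ≤ σ ^ 4 * ((m - 1 : ℝ) - σ ^ 2) := mul_nonneg h4 (by linarith)
      have := mul_le_mul_of_nonneg_left (r1 h) h5
      linarith
    · have h5 : σ ^ 4 * ((m - 1 : ℝ) - σ ^ 2) ≤ 0 :=
        mul_nonpos_of_nonneg_of_nonpos h4 (by linarith)
      have := mul_le_mul_of_nonpos_left (r2 h) h5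
      linarith
  have : 0 ≤ ww m β1 (m - 1) * JJ m β2 := (mul_nonneg p4.le hJ).trans key
  exact nonneg_of_mul_nonneg_right this p3

theorem continuousOn_HH : ContinuousOn (HH m) (Ici 0) := by
  unfold HH
  apply ContinuousOn.mul _ continuousOn_II
  apply Continuous.continuousOn
  fun_prop

theorem HH_le_max (hm : 0 < m) {β : ℝ} (h0 : 0 ≤ β) (h1 : β * (m + 1) ≤ 1) :
    HH m β ≤ max (HH m 0) (HH m (1 / (m + 1))) := by
  have hmp : (0 : ℝ) < m + 1 := by positivity
  have hβ1 : β ≤ 1 / (m + 1) := by rw [le_div_iff₀ hmp]; exact h1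
  rcases le_or_gt 0 (JJ m β) with hJ | hJ
  · apply le_max_of_le_right
    have hmono : MonotoneOn (HH m) (Icc β (1 / (m + 1))) := by
      apply monotoneOn_of_deriv_nonneg (convex_Icc _ _)
      · exact continuousOn_HH.mono fun x hx => h0.trans hx.1
      · rw [interior_Icc]
        intro x hx
        exact (hasDerivAt_HH (h0.trans_lt hx.1) hm).differentiableAt.differentiableWithinAt
      · rw [interior_Icc]
        intro x hx
        have hx1 : x * (m + 1) ≤ 1 := by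
          have := hx.2.le
          rw [le_div_iff₀ hmp] at this
          exact this
        rw [(hasDerivAt_HH (h0.trans_lt hx.1) hm).deriv]
        have hJx := JJ_nonneg_of h0 hx.1.le hx1 hm hJ
        apply mul_nonneg (inv_nonneg.2 (Real.sqrt_nonneg _))
        apply mul_nonneg _ hJx
        apply mul_nonneg (by positivity)
        linarith
    exact hmono ⟨le_rfl, hβ1⟩ ⟨hβ1, le_rfl⟩ hβ1
  · apply le_max_of_le_left
    have hanti : AntitoneOn (HH m) (Icc 0 β) := by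
      apply antitoneOn_of_deriv_nonpos (convex_Icc _ _)
      · exact continuousOn_HH.mono fun x hx => hx.1
      · rw [interior_Icc]
        intro x hx
        exact (hasDerivAt_HH hx.1 hm).differentiableAt.differentiableWithinAt
      · rw [interior_Icc]
        intro x hx
        have hx1 : x * (m + 1) ≤ 1 :=
          le_trans (mul_le_mul_of_nonneg_right hx.2.le hmp.le) h1
        rw [(hasDerivAt_HH hx.1 hm).deriv]
        have hJx : JJ m x ≤ 0 := by
          by_contra hcon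
          exact absurd (JJ_nonneg_of hx.1.le hx.2.le h1 hm (not_le.1 hcon).le) (not_le.2 hJ)
        apply mul_nonpos_of_nonneg_of_nonpos (inv_nonneg.2 (Real.sqrt_nonneg _))
        apply mul_nonpos_of_nonneg_of_nonpos _ hJx
        apply mul_nonneg (by positivity)
        linarith
    exact hanti ⟨le_rfl, h0⟩ ⟨h0, le_rfl⟩ h0

/-- the family integral in terms of the one-parameter function -/
theorem family_eq {b y z : ℝ} (hy : 0 < y) (hb : b = y + m * z)
    (hz : 0 ≤ z) (h1 : b ^ 2 + y ^ 2 + m * z ^ 2 = 1) :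
    ∫ s in Ioi (0 : ℝ), ((1 + b ^ 2 * s ^ 2) * (1 + y ^ 2 * s ^ 2) * (1 + z ^ 2 * s ^ 2) ^ m)⁻¹ =
      HH m (z ^ 2 / (b * y)) := by
  have hmz : 0 ≤ (m : ℝ) * z := by positivity
  have hb0 : 0 < b := by rw [hb]; linarith
  have hby : 0 < b * y := mul_pos hb0 hy
  set c : ℝ := Real.sqrt (b * y) with hc
  have hc0 : 0 < c := Real.sqrt_pos.2 hby
  have hc2 : c ^ 2 = b * y := Real.sq_sqrt hby.le
  have hfun : (fun s : ℝ => ((1 + b ^ 2 * s ^ 2) * (1 + y ^ 2 * s ^ 2) *
      (1 + z ^ 2 * s ^ 2) ^ m)⁻¹) = fun s => gg m (z ^ 2 / (b * y)) (c * s) := by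
    funext s
    unfold gg AA BBf
    have e1 : (c * s) ^ 2 = b * y * s ^ 2 := by rw [mul_pow, hc2]
    rw [e1]
    have e2 : z ^ 2 / (b * y) * (b * y * s ^ 2) = z ^ 2 * s ^ 2 := by field_simp
    have e3 : (m : ℝ) ^ 2 * (z ^ 2 / (b * y)) * (b * y * s ^ 2) = (m : ℝ) ^ 2 * z ^ 2 * s ^ 2 := by
      rw [mul_assoc, e2]; ring
    rw [e2, e3]
    congr 2
    rw [hb]
    ring
  rw [hfun, integral_comp_mul_left_Ioi (fun x => gg m (z ^ 2 / (b * y)) x) 0 hc0, mul_zero]
  unfold HH II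
  have hN : Real.sqrt (2 + m * (m + 1) * (z ^ 2 / (b * y))) = c⁻¹ := by
    have e4 : 2 + (m : ℝ) * (m + 1) * (z ^ 2 / (b * y)) = (c⁻¹) ^ 2 := by
      rw [inv_pow, hc2]
      have hne := hby.ne'
      have h5 : 2 * (b * y) + m * (m + 1) * z ^ 2 = 1 := by
        rw [hb] at h1 ⊢
        linear_combination h1
      field_simp
      linarith
    rw [e4, Real.sqrt_sq (inv_nonneg.2 hc0.le)]
  rw [hN, smul_eq_mul]

theorem beta_le {b y z : ℝ} (hy : 0 < y) (hb : b = y + m * z) (hz : 0 ≤ z) (hzy : z ≤ y) :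
    z ^ 2 / (b * y) * (m + 1) ≤ 1 := by
  have hmz : 0 ≤ (m : ℝ) * z := by positivity
  have hb0 : 0 < b := by rw [hb]; linarith
  have hby : 0 < b * y := mul_pos hb0 hy
  rw [div_mul_eq_mul_div, div_le_one hby, hb]
  have h1 : z * z ≤ y * y := mul_le_mul hzy hzy hz hy.le
  have h2 : (m : ℝ) * (z * z) ≤ m * (z * y) :=
    mul_le_mul_of_nonneg_left (mul_le_mul_of_nonneg_left hzy hz) (by positivity)
  nlinarith

end Pool.Agent.Helper52.CP
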