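import Pool.Agent.Helper52.CP.Three

namespace Pool.Agent.Helper52.CP

open Set MeasureTheory Filter Topology

theorem integral_lt_of {f g : ℝ → ℝ} (hf : IntegrableOn f (Ioi 0)) (hg : IntegrableOn g (Ioi 0))
    (h : ∀ s ∈ Ioi (0 : ℝ), f s < g s) : ∫ s in Ioi (0 : ℝ), f s < ∫ s in Ioi (0 : ℝ), g s := by
  rw [← sub_pos, ← integral_sub hg hf]
  have hnn : 0 ≤ᵐ[volume.restrict (Ioi (0 : ℝ))] fun s => g s - f s := by
    rw [EventuallyLE, ae_restrict_iff' measurableSet_Ioi]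
    filter_upwards with s hs
    exact (sub_pos.2 (h s hs)).le
  rw [setIntegral_pos_iff_support_of_nonneg_ae hnn (hg.sub hf)]
  have : Function.support (fun s => g s - f s) ∩ Ioi 0 = Ioi 0 := by
    apply inter_eq_right.2
    intro s hs
    exact (sub_pos.2 (h s hs)).ne'
  rw [this, Real.volume_Ioi]
  exact ENNReal.zero_lt_top

theorem FF_neg {ι : Type*} [Fintype ι] (a : ι → ℝ) : FF (fun j => -a j) = FF a := by
  unfold FF
  simp only [neg_sq]

theorem MM_neg {ι : Type*} [Fintype ι] {a : ι → ℝ} (ha : a ∈ MM ι) :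
    (fun j => -a j) ∈ MM ι := by
  refine ⟨?_, ?_⟩
  · rw [Finset.sum_neg_distrib, ha.1, neg_zero]
  · simp only [neg_sq]
    exact ha.2

theorem step1 {ι : Type*} [Fintype ι] [DecidableEq ι] {a : ι → ℝ} (ha : a ∈ MM ι)
    (hmax : ∀ x ∈ MM ι, FF x ≤ FF a) {i : ι} (hpos : 0 < a i) (hle : ∀ j, |a j| ≤ a i) :
    ∀ j, j ≠ i → a j ≤ 0 := by
  intro j hji
  by_contra hj
  rw [not_le] at hj
  obtain ⟨k, hk⟩ : ∃ k, a k < 0 := by
    by_contra hcon
    push Not at hcon
    have h1 : a i ≤ ∑ l, a l := Finset.single_le_sum (f := a) (fun l _ => hcon l)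
      (Finset.mem_univ i)
    rw [ha.1] at h1
    linarith
  have hki : k ≠ i := by rintro rfl; linarith
  have hkj : k ≠ j := by rintro rfl; linarith
  have hji' : a j ≤ a i := (le_abs_self _).trans (hle j)
  obtain ⟨y1, y2, -, m1, m2, m3⟩ := exists_move (x1 := a i) (x2 := a j) (x3 := a k) (t := 0)
    hji' hk hj
  obtain ⟨a', u1, u2, u3⟩ := exists_update a hji.symm hkj.symm hki.symm y1 y2 0
  obtain ⟨v1, v2, v3⟩ := split_three a hji.symm hkj.symm hki.symm
  have ha' : a' ∈ MM ι := by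
    refine ⟨?_, ?_⟩
    · rw [u1, m1, ← v1]; exact ha.1
    · have : y1 ^ 2 + y2 ^ 2 + 0 ^ 2 = a i ^ 2 + a j ^ 2 + a k ^ 2 := by
        have e1 : y1 ^ 2 + y2 ^ 2 + 0 ^ 2 = (y1 + y2 + 0) ^ 2 -
            2 * (y1 * y2 + y2 * 0 + 0 * y1) := by ring
        rw [e1, m1, m2]; ring
      rw [u2, this, ← v2]; exact ha.2
  have hlt : FF a < FF a' := by
    unfold FF
    apply integral_lt_of (integrable_FF ha.2) (integrable_FF ha'.2)
    intro s hs
    have hs' : 0 < s := hs
    rw [u3, v3]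
    apply mul_lt_mul_of_pos_left _ (prod_pos' _ _ _)
    apply inv_strictAnti₀
    · have := factor_pos y1 s
      have := factor_pos y2 s
      have := factor_pos 0 s
      positivity
    · rw [cubic_id, cubic_id, m1, m2, mul_zero]
      have e1 : 0 < a i + a j + a k := by
        have := neg_le_of_abs_le (hle k)
        linarith
      have r0 : a i * a j * a k < 0 := mul_neg_of_pos_of_neg (mul_pos hpos hj) hk
      have h2 : 0 < s ^ 2 := by positivity
      have h3 : 0 < -(a i * a j * a k) * s ^ 2 := mul_pos (neg_pos.2 r0) h2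
      have h4 : (a i + a j + a k - 0 * s ^ 2) ^ 2 <
          (a i + a j + a k - a i * a j * a k * s ^ 2) ^ 2 := by
        apply pow_lt_pow_left₀ _ (by linarith) two_ne_zero
        linarith
      have h5 := mul_lt_mul_of_pos_left h4 h2
      linarith
  exact absurd (hmax a' ha') (not_le.2 hlt)

theorem prod_antitone {ι : Type*} (t : Finset ι) (a : ι → ℝ) {s s' : ℝ} (hs : 0 ≤ s)
    (h : s ≤ s') : ∏ j ∈ t, (1 + a j ^ 2 * s' ^ 2)⁻¹ ≤ ∏ j ∈ t, (1 + a j ^ 2 * s ^ 2)⁻¹ := by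
  apply Finset.prod_le_prod
  · intro j _; exact (inv_pos.2 (factor_pos _ _)).le
  · intro j _
    apply inv_anti₀ (factor_pos _ _)
    have : s ^ 2 ≤ s' ^ 2 := pow_le_pow_left₀ hs h 2
    have := mul_le_mul_of_nonneg_left this (sq_nonneg (a j))
    linarith

theorem step2 {ι : Type*} [Fintype ι] [DecidableEq ι] {a : ι → ℝ} (ha : a ∈ MM ι)
    (hmax : ∀ x ∈ MM ι, FF x ≤ FF a) {p q r : ι}
    (hpq : p ≠ q) (hqr : q ≠ r) (hpr : p ≠ r) (hr0 : a r ≤ 0) (h1 : a p ≤ a q)
    (h2 : a q < a r) : False := by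
  set x1 : ℝ := -a p with hx1
  set x2 : ℝ := -a q with hx2
  set x3 : ℝ := -a r with hx3
  have h21 : x2 ≤ x1 := by rw [hx1, hx2]; linarith
  have h32 : x3 < x2 := by rw [hx2, hx3]; linarith
  have h3 : 0 ≤ x3 := by rw [hx3]; linarith
  set t : ℝ := (x2 + x3) / 2 with ht
  have t1 : x3 < t := by rw [ht]; linarith
  have t2 : t < x2 := by rw [ht]; linarith
  have t0 : 0 < t := by linarith
  obtain ⟨y1, y2, hy21, m1, m2, m3⟩ := exists_move h21 t1 t2
  have hdelta : 0 < (x1 - t) * (x2 - t) * (t - x3) :=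
    mul_pos (mul_pos (by linarith) (by linarith)) (by linarith)
  have hr : 0 ≤ x1 * x2 * x3 := mul_nonneg (mul_nonneg (by linarith) (by linarith)) h3
  have hyy : 0 < y1 * y2 := by
    have : 0 < y1 * y2 * t := by rw [m3]; linarith
    exact pos_of_mul_pos_left this t0.le
  have hys : 0 < y1 + y2 := by linarith
  have hy1 : 0 < y1 := by
    by_contra hcon
    nlinarith
  have hy2 : 0 < y2 := pos_of_mul_pos_right hyy hy1.le
  obtain ⟨a', u1, u2, u3⟩ := exists_update a hpq hqr hpr (-y1) (-y2) (-t)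
  obtain ⟨v1, v2, v3⟩ := split_three a hpq hqr hpr
  have ha' : a' ∈ MM ι := by
    refine ⟨?_, ?_⟩
    · have : -y1 + -y2 + -t = a p + a q + a r := by linarith
      rw [u1, this, ← v1]; exact ha.1
    · have : (-y1) ^ 2 + (-y2) ^ 2 + (-t) ^ 2 = a p ^ 2 + a q ^ 2 + a r ^ 2 := by
        have e1 : (-y1) ^ 2 + (-y2) ^ 2 + (-t) ^ 2 = (y1 + y2 + t) ^ 2 -
            2 * (y1 * y2 + y2 * t + t * y1) := by ring
        rw [e1, m1, m2, hx1, hx2, hx3]; ring
      rw [u2, this, ← v2]; exact ha.2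
  -- the comparison of the three-factor integrals
  have hcmp : TT x1 x2 x3 < TT y1 y2 t :=
    compare h3 h32.le h21 (by linarith) hy2.le hy21 t0 hy1 m1 m2 (by rw [m3]; linarith)
  set Q : ℝ → ℝ := fun s => ∏ l ∈ ({p, q, r}ᶜ : Finset ι), (1 + a l ^ 2 * s ^ 2)⁻¹ with hQ
  set e1 : ℝ := x1 + x2 + x3 with he1
  set r1 : ℝ := x1 * x2 * x3 with hr1
  set r2 : ℝ := y1 * y2 * t with hr2
  have hr12 : r1 < r2 := by rw [m3]; linarith
  have hrs : 0 < r1 + r2 := by linarith
  set s0 : ℝ := Real.sqrt (2 * e1 / (r1 + r2)) with hs0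
  have he10 : 0 < e1 := by rw [he1]; linarith
  have hs0sq : s0 ^ 2 = 2 * e1 / (r1 + r2) := Real.sq_sqrt (by positivity)
  have hs0n : 0 ≤ s0 := Real.sqrt_nonneg _
  set D1 : ℝ → ℝ := fun s => (1 + x1 ^ 2 * s ^ 2) * (1 + x2 ^ 2 * s ^ 2) * (1 + x3 ^ 2 * s ^ 2)
    with hD1
  set D2 : ℝ → ℝ := fun s => (1 + y1 ^ 2 * s ^ 2) * (1 + y2 ^ 2 * s ^ 2) * (1 + t ^ 2 * s ^ 2)
    with hD2
  have hD1p : ∀ s, 0 < D1 s := fun s => by
    have := factor_pos x1 s
    have := factor_pos x2 s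
    have := factor_pos x3 s
    positivity
  have hD2p : ∀ s, 0 < D2 s := fun s => by
    have := factor_pos y1 s
    have := factor_pos y2 s
    have := factor_pos t s
    positivity
  have hdiff : ∀ s, D1 s - D2 s = s ^ 4 * (r2 - r1) * (2 * e1 - (r1 + r2) * s ^ 2) := by
    intro s
    simp only [hD1, hD2]
    rw [cubic_id, cubic_id, m1, m2]
    ring
  have hkey : ∀ s ∈ Ioi (0 : ℝ), Q s0 * ((D2 s)⁻¹ - (D1 s)⁻¹) ≤ Q s * ((D2 s)⁻¹ - (D1 s)⁻¹) := by
    intro s hs
    have hs' : 0 < s := hs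
    rcases le_total s s0 with h | h
    · apply mul_le_mul_of_nonneg_right
      · exact prod_antitone _ a hs'.le h
      · rw [sub_nonneg]
        apply inv_anti₀ (hD2p s)
        have h4 : s ^ 2 ≤ 2 * e1 / (r1 + r2) := by
          rw [← hs0sq]; exact pow_le_pow_left₀ hs'.le h 2
        rw [le_div_iff₀ hrs] at h4
        have h5 := hdiff s
        have h6 : 0 ≤ s ^ 4 * (r2 - r1) * (2 * e1 - (r1 + r2) * s ^ 2) := by
          apply mul_nonneg (mul_nonneg (by positivity) (by linarith))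
          linarith
        linarith
    · apply mul_le_mul_of_nonpos_right
      · exact prod_antitone _ a hs0n h
      · rw [sub_nonpos]
        apply inv_anti₀ (hD1p s)
        have h4 : 2 * e1 / (r1 + r2) ≤ s ^ 2 := by
          rw [← hs0sq]; exact pow_le_pow_left₀ hs0n h 2
        rw [div_le_iff₀ hrs] at h4
        have h5 := hdiff s
        have h6 : s ^ 4 * (r2 - r1) * (2 * e1 - (r1 + r2) * s ^ 2) ≤ 0 := by
          apply mul_nonpos_of_nonneg_of_nonpos
          · have : 0 ≤ r2 - r1 := by linarith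
            positivity
          · linarith
        linarith
  have i1 : IntegrableOn (fun s => (D1 s)⁻¹) (Ioi 0) := TT_integrable (by linarith)
  have i2 : IntegrableOn (fun s => (D2 s)⁻¹) (Ioi 0) := TT_integrable hy1
  have hsq1 : ∀ s : ℝ, (1 + a p ^ 2 * s ^ 2) * (1 + a q ^ 2 * s ^ 2) * (1 + a r ^ 2 * s ^ 2) =
      D1 s := by
    intro s
    simp only [hD1, hx1, hx2, hx3, neg_sq]
  have hFa : FF a = ∫ s in Ioi (0 : ℝ), Q s * (D1 s)⁻¹ := by
    unfold FF
    congr 1
    funext s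
    rw [v3 s, hsq1]
  have hFa' : FF a' = ∫ s in Ioi (0 : ℝ), Q s * (D2 s)⁻¹ := by
    unfold FF
    congr 1
    funext s
    rw [u3 s]
    simp only [neg_sq, hQ, hD2]
  have j1 : IntegrableOn (fun s => Q s * (D1 s)⁻¹) (Ioi 0) := by
    have := integrable_FF ha.2
    refine this.congr ?_
    filter_upwards with s
    rw [v3 s, hsq1]
  have j2 : IntegrableOn (fun s => Q s * (D2 s)⁻¹) (Ioi 0) := by
    have := integrable_FF ha'.2
    refine this.congr ?_
    filter_upwards with s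
    rw [u3 s]
    simp only [neg_sq, hQ, hD2]
  have hlt : FF a < FF a' := by
    rw [← sub_pos, hFa, hFa', ← integral_sub j2 j1]
    have h7 : Q s0 * (TT y1 y2 t - TT x1 x2 x3) ≤
        ∫ s in Ioi (0 : ℝ), (Q s * (D2 s)⁻¹ - Q s * (D1 s)⁻¹) := by
      unfold TT
      rw [← integral_sub i2 i1, ← integral_const_mul]
      apply setIntegral_mono_on ((i2.sub i1).const_mul _) (j2.sub j1) measurableSet_Ioi
      intro s hs
      have := hkey s hs
      rw [mul_sub (Q s)] at this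
      exact this
    refine lt_of_lt_of_le ?_ h7
    exact mul_pos (prod_pos' _ _ _) (sub_pos.2 hcmp)
  exact absurd (hmax a' ha') (not_le.2 hlt)

end Pool.Agent.Helper52.CP
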