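import Pool.Agent.Helper52.CP.Struct

namespace Pool.Agent.Helper52.CP

open Set MeasureTheory Filter Topology

/-- pure powers -/
noncomputable def CC (j : ℕ) : ℝ := ∫ x in Ioi (0 : ℝ), ((1 + x ^ 2) ^ j)⁻¹

/-- mixed integrals -/
noncomputable def KK (k : ℝ) (j : ℕ) : ℝ :=
  ∫ x in Ioi (0 : ℝ), ((1 + k ^ 2 * x ^ 2) * (1 + x ^ 2) ^ j)⁻¹

theorem CC_integrable {j : ℕ} (hj : 0 < j) :
    IntegrableOn (fun x : ℝ => ((1 + x ^ 2) ^ j)⁻¹) (Ioi 0) := by
  apply Integrable.mono' integrable_inv_one_add_sq.integrableOn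
  · apply Continuous.aestronglyMeasurable
    exact Continuous.inv₀ (by fun_prop) fun x => by positivity
  · filter_upwards with x
    rw [Real.norm_of_nonneg (by positivity)]
    apply inv_anti₀ (by positivity)
    calc 1 + x ^ 2 = (1 + x ^ 2) ^ 1 := (pow_one _).symm
      _ ≤ (1 + x ^ 2) ^ j := pow_le_pow_right₀ (by nlinarith [sq_nonneg x]) hj

theorem KK_integrable {k : ℝ} (hk : 1 ≤ k) (j : ℕ) :
    IntegrableOn (fun x : ℝ => ((1 + k ^ 2 * x ^ 2) * (1 + x ^ 2) ^ j)⁻¹) (Ioi 0) := by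
  apply Integrable.mono' integrable_inv_one_add_sq.integrableOn
  · apply Continuous.aestronglyMeasurable
    exact Continuous.inv₀ (by fun_prop) fun x => by positivity
  · filter_upwards with x
    rw [Real.norm_of_nonneg (by positivity)]
    apply inv_anti₀ (by positivity)
    have h1 : 1 + x ^ 2 ≤ 1 + k ^ 2 * x ^ 2 := by
      have : 1 ≤ k ^ 2 := one_le_pow₀ hk
      nlinarith [sq_nonneg x]
    have h2 : 1 ≤ (1 + x ^ 2) ^ j := one_le_pow₀ (by nlinarith [sq_nonneg x])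
    calc 1 + x ^ 2 = (1 + x ^ 2) * 1 := (mul_one _).symm
      _ ≤ _ := mul_le_mul h1 h2 zero_le_one (by positivity)

theorem CC_one : CC 1 = Real.pi / 2 := by
  unfold CC
  simp only [pow_one]
  rw [integral_Ioi_inv_one_add_sq, Real.arctan_zero, sub_zero]

theorem CC_succ {j : ℕ} (hj : 0 < j) : 2 * (j : ℝ) * CC (j + 1) = (2 * j - 1) * CC j := by
  have hd : ∀ x : ℝ, HasDerivAt (fun x : ℝ => x * ((1 + x ^ 2) ^ j)⁻¹)
      ((1 - 2 * (j : ℝ)) * ((1 + x ^ 2) ^ j)⁻¹ + 2 * (j : ℝ) * ((1 + x ^ 2) ^ (j + 1))⁻¹) x := by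
    intro x
    have hp : 0 < 1 + x ^ 2 := by positivity
    have d2 : HasDerivAt (fun x : ℝ => 1 + x ^ 2) (2 * x) x := by
      simpa using (hasDerivAt_pow 2 x).const_add 1
    have h := (hasDerivAt_id x).mul ((d2.pow j).inv (pow_pos hp j).ne')
    refine h.congr_deriv ?_
    obtain ⟨i, rfl⟩ : ∃ i, j = i + 1 := ⟨j - 1, by omega⟩
    simp only [Nat.add_sub_cancel, id, Pi.pow_apply, Pi.inv_apply]
    have hp' := hp.ne'
    field_simp
    ring
  have hint := ((CC_integrable hj).const_mul (1 - 2 * (j : ℝ))).add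
    ((CC_integrable (Nat.succ_pos j)).const_mul (2 * (j : ℝ)))
  have hlim : Tendsto (fun x : ℝ => x * ((1 + x ^ 2) ^ j)⁻¹) atTop (𝓝 0) := by
    apply squeeze_zero_norm' (a := fun x : ℝ => x⁻¹) _ tendsto_inv_atTop_zero
    filter_upwards [eventually_gt_atTop 0] with x hx
    rw [Real.norm_of_nonneg (by positivity)]
    have h1 : 1 + x ^ 2 ≤ (1 + x ^ 2) ^ j := by
      calc 1 + x ^ 2 = (1 + x ^ 2) ^ 1 := (pow_one _).symm
        _ ≤ (1 + x ^ 2) ^ j := pow_le_pow_right₀ (by nlinarith [sq_nonneg x]) hj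
    rw [← div_eq_mul_inv, inv_eq_one_div, div_le_div_iff₀ (by positivity) hx]
    nlinarith
  have h := integral_Ioi_of_hasDerivAt_of_tendsto' (fun x _ => hd x) hint hlim
  rw [integral_add ((CC_integrable hj).const_mul _)
    ((CC_integrable (Nat.succ_pos j)).const_mul _), integral_const_mul, integral_const_mul] at h
  simp only [zero_mul, sub_zero] at h
  change (1 - 2 * (j : ℝ)) * CC j + 2 * (j : ℝ) * CC (j + 1) = 0 at h
  linarith

theorem KK_zero {k : ℝ} (hk : 1 ≤ k) : KK k 0 = Real.pi / (2 * k) := by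
  unfold KK
  have hk0 : 0 < k := by linarith
  have e : (fun x : ℝ => ((1 + k ^ 2 * x ^ 2) * (1 + x ^ 2) ^ 0)⁻¹) =
      fun x => (fun y : ℝ => (1 + y ^ 2)⁻¹) (k * x) := by
    funext x
    simp only [pow_zero, mul_one, mul_pow]
  rw [e, integral_comp_mul_left_Ioi (fun y : ℝ => (1 + y ^ 2)⁻¹) 0 hk0, mul_zero,
    integral_Ioi_inv_one_add_sq, Real.arctan_zero]
  simp only [smul_eq_mul]
  field_simp
  ring

theorem KK_succ {k : ℝ} (hk : 1 ≤ k) (j : ℕ) :
    (k ^ 2 - 1) * KK k (j + 1) = k ^ 2 * KK k j - CC (j + 1) := by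
  unfold KK CC
  rw [← integral_const_mul, ← integral_const_mul, ← integral_sub
    ((KK_integrable hk j).const_mul _) (CC_integrable (Nat.succ_pos j))]
  congr 1
  funext x
  have h1 : (1 + k ^ 2 * x ^ 2) ≠ 0 := by positivity
  have h2 : (1 + x ^ 2) ≠ 0 := by positivity
  field_simp
  ring

theorem HH_zero (m : ℕ) : HH m 0 = Real.sqrt 2 * (Real.pi / 4) := by
  unfold HH II gg AA BBf
  simp only [mul_zero, zero_mul, add_zero, one_pow, mul_one]
  have h := CC_succ (j := 1) one_pos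
  rw [CC_one] at h
  have h2 : CC 2 = Real.pi / 4 := by
    norm_num at h
    linarith
  rw [← h2]
  rfl

theorem HH_end (m : ℕ) : HH m (1 / (m + 1)) =
    Real.sqrt ((m + 2) * (m + 1)) * KK (m + 1) (m + 1) := by
  have hm : (0 : ℝ) ≤ m := by positivity
  have hpos : (0 : ℝ) < (m + 2) * (m + 1) := by positivity
  set t : ℝ := (Real.sqrt ((m + 2) * (m + 1)))⁻¹ with ht
  have ht0 : 0 < t := inv_pos.2 (Real.sqrt_pos.2 hpos)
  have ht2 : t ^ 2 * ((m + 2) * (m + 1)) = 1 := by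
    rw [ht, inv_pow, Real.sq_sqrt hpos.le]
    field_simp
  have h := family_eq (m := m) (b := (m + 1) * t) (y := t) (z := t) ht0 (by ring) ht0.le
    (by linear_combination ht2)
  have e1 : t ^ 2 / ((m + 1) * t * t) = 1 / (m + 1) := by field_simp
  rw [e1] at h
  rw [← h]
  have e2 : (fun s : ℝ => ((1 + ((m + 1) * t) ^ 2 * s ^ 2) * (1 + t ^ 2 * s ^ 2) *
      (1 + t ^ 2 * s ^ 2) ^ m)⁻¹) =
      fun s => (fun x : ℝ => ((1 + ((m : ℝ) + 1) ^ 2 * x ^ 2) * (1 + x ^ 2) ^ (m + 1))⁻¹) (t * s) := by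
    funext s
    simp only
    congr 1
    rw [pow_succ]
    ring
  rw [e2, integral_comp_mul_left_Ioi
    (fun x : ℝ => ((1 + ((m : ℝ) + 1) ^ 2 * x ^ 2) * (1 + x ^ 2) ^ (m + 1))⁻¹) 0 ht0, mul_zero,
    smul_eq_mul]
  unfold KK
  rw [ht, inv_inv]

theorem W3 : HH 3 (1 / ((3 : ℕ) + 1)) ≤ Real.sqrt 2 * (Real.pi / 4) := by
  rw [HH_end]
  norm_num
  have c1 := CC_one
  have c2 := CC_succ (j := 1) one_pos
  have c3 := CC_succ (j := 2) two_pos
  have c4 := CC_succ (j := 3) (by norm_num)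
  have k0 := KK_zero (k := 4) (by norm_num)
  have k1 := KK_succ (k := 4) (by norm_num) 0
  have k2 := KK_succ (k := 4) (by norm_num) 1
  have k3 := KK_succ (k := 4) (by norm_num) 2
  have k4 := KK_succ (k := 4) (by norm_num) 3
  norm_num at c1 c2 c3 c4 k0 k1 k2 k3 k4
  have hK : KK 4 4 = 1573 * Real.pi / 20000 := by linarith
  rw [hK]
  have h20 : Real.sqrt 20 = Real.sqrt 2 * Real.sqrt 10 := by
    rw [← Real.sqrt_mul (by norm_num)]; norm_num
  rw [h20]
  have hs10 : Real.sqrt 10 ≤ 5000 / 1573 := by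
    rw [Real.sqrt_le_left (by norm_num)]
    norm_num
  have hpi := Real.pi_pos
  have hs2 : 0 < Real.sqrt 2 := by positivity
  have : Real.sqrt 2 * Real.sqrt 10 * (1573 * Real.pi / 20000) =
      Real.sqrt 2 * (Real.pi / 4) * (Real.sqrt 10 * (1573 / 5000)) := by ring
  rw [this]
  apply mul_le_of_le_one_right (by positivity)
  rw [← le_div_iff₀ (by norm_num)]
  norm_num
  exact hs10

theorem W4 : Real.sqrt 2 * (Real.pi / 4) < HH 4 (1 / ((4 : ℕ) + 1)) := by
  rw [HH_end]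
  norm_num
  have c1 := CC_one
  have c2 := CC_succ (j := 1) one_pos
  have c3 := CC_succ (j := 2) two_pos
  have c4 := CC_succ (j := 3) (by norm_num)
  have c5 := CC_succ (j := 4) (by norm_num)
  have k0 := KK_zero (k := 5) (by norm_num)
  have k1 := KK_succ (k := 5) (by norm_num) 0
  have k2 := KK_succ (k := 5) (by norm_num) 1
  have k3 := KK_succ (k := 5) (by norm_num) 2
  have k4 := KK_succ (k := 5) (by norm_num) 3
  have k5 := KK_succ (k := 5) (by norm_num) 4
  norm_num at c1 c2 c3 c4 c5 k0 k1 k2 k3 k4 k5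
  have hK : KK 5 5 = 8135 * Real.pi / 124416 := by linarith
  rw [hK]
  have h30 : Real.sqrt 30 = Real.sqrt 2 * Real.sqrt 15 := by
    rw [← Real.sqrt_mul (by norm_num)]; norm_num
  rw [h30]
  have hs15 : 31104 / 8135 < Real.sqrt 15 := by
    rw [Real.lt_sqrt (by norm_num)]
    norm_num
  have hpi := Real.pi_pos
  have hs2 : 0 < Real.sqrt 2 := by positivity
  have e : Real.sqrt 2 * Real.sqrt 15 * (8135 * Real.pi / 124416) =
      Real.sqrt 2 * (Real.pi / 4) * (Real.sqrt 15 * (8135 / 31104)) := by ring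
  rw [e]
  apply lt_mul_of_one_lt_right (by positivity)
  rw [← div_lt_iff₀ (by norm_num)]
  norm_num
  exact hs15

/-- embedding by zeros -/
theorem end_le (m k : ℕ) (hm : 0 < m + k) :
    HH m (1 / (m + 1)) ≤ max (Real.sqrt 2 * (Real.pi / 4)) (HH (m + k) (1 / ((m + k : ℕ) + 1))) := by
  obtain ⟨hw, hFw⟩ := wvec_family m
  set x : Fin (m + 2) ⊕ Fin k → ℝ := Sum.elim (wvec (m + 2)) (fun _ => 0) with hx
  have hxM : x ∈ MM (Fin (m + 2) ⊕ Fin k) := by
    refine ⟨?_, ?_⟩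
    · rw [Fintype.sum_sum_type]
      simp only [hx, Sum.elim_inl, Sum.elim_inr, Finset.sum_const_zero, add_zero]
      exact hw.1
    · rw [Fintype.sum_sum_type]
      simp only [hx, Sum.elim_inl, Sum.elim_inr]
      rw [hw.2]
      simp
  have hFx : FF x = FF (wvec (m + 2)) := by
    unfold FF
    congr 1
    funext s
    rw [Fintype.prod_sum_type]
    simp [hx]
  have h := FF_le_max (m := m + k) hm (by simp; ring) hxM
  rw [hFx, hFw, HH_zero] at h
  exact h

/-- the main inequality for the section integral -/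
theorem FF_main {n : ℕ} (hn : 2 ≤ n) {a : Fin n → ℝ} (ha : a ∈ MM (Fin n)) :
    (n ≤ 5 → FF a ≤ FF (uvec n)) ∧ (6 ≤ n → FF a ≤ FF (wvec n)) := by
  obtain ⟨m, rfl⟩ : ∃ m, n = m + 2 := ⟨n - 2, by omega⟩
  rcases Nat.eq_zero_or_pos m with h0 | hm
  · subst h0
    refine ⟨fun _ => ?_, fun h => absurd h (by norm_num)⟩
    apply le_of_eq
    have h1 := ha.1
    have h2 := ha.2
    rw [Fin.sum_univ_two] at h1 h2
    have h3 : a 1 = -a 0 := by linarith
    rw [h3, neg_sq] at h2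
    have h4 : a 0 ^ 2 = 1 / 2 := by linarith
    have h5 : a 1 ^ 2 = 1 / 2 := by rw [h3, neg_sq, h4]
    have hs2 := sqrt_two_inv_sq
    unfold FF
    congr 1
    funext s
    rw [Fin.prod_univ_two, Fin.prod_univ_two, h4, h5]
    simp [uvec]
  · have hle := FF_le_max hm (by simp) ha
    constructor
    · intro h5
      rw [(uvec_family m).2]
      have h3 : HH m (1 / (m + 1)) ≤ Real.sqrt 2 * (Real.pi / 4) := by
        obtain ⟨k, hk⟩ : ∃ k, m + k = 3 := ⟨3 - m, by omega⟩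
        have := end_le m k (by omega)
        rw [hk] at this
        exact this.trans (max_le le_rfl W3)
      rw [HH_zero] at hle ⊢
      exact hle.trans (max_le le_rfl h3)
    · intro h6
      rw [(wvec_family m).2]
      obtain ⟨k, hk⟩ : ∃ k, 4 + k = m := ⟨m - 4, by omega⟩
      have h4 := end_le 4 k (by omega)
      rw [hk] at h4
      have h5 : Real.sqrt 2 * (Real.pi / 4) ≤ HH m (1 / (m + 1)) := by
        rcases le_max_iff.1 h4 with h | h
        · exact absurd h (not_le.2 W4)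
        · exact W4.le.trans h
      rw [HH_zero] at hle
      exact hle.trans (max_le h5 le_rfl)

end Pool.Agent.Helper52.CP
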