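import Pool.Agent.Helper52.CP.Improve
import Pool.Agent.Helper52.CP.Family2

namespace Pool.Agent.Helper52.CP

open Set MeasureTheory Filter Topology

theorem family_prod {ι : Type*} [Fintype ι] [DecidableEq ι] {m : ℕ}
    (hcard : Fintype.card ι = m + 2) {a : ι → ℝ} {i p : ι} (hip : i ≠ p) {b y z : ℝ}
    (h1 : a i = b) (h2 : a p = y) (h3 : ∀ j, j ≠ i → j ≠ p → a j = z) :
    (∑ j, a j = b + y + m * z) ∧ (∑ j, a j ^ 2 = b ^ 2 + y ^ 2 + m * z ^ 2) ∧
      ∀ s : ℝ, ∏ j, (1 + a j ^ 2 * s ^ 2)⁻¹ =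
        ((1 + b ^ 2 * s ^ 2) * (1 + y ^ 2 * s ^ 2) * (1 + z ^ 2 * s ^ 2) ^ m)⁻¹ := by
  have hi : i ∉ ({p} : Finset ι) := by simp [hip]
  have hc : ({i, p}ᶜ : Finset ι).card = m := by
    rw [Finset.card_compl, Finset.card_pair hip, hcard]
    omega
  have h4 : ∀ l ∈ ({i, p}ᶜ : Finset ι), a l = z := by
    intro l hl
    simp only [Finset.mem_compl, Finset.mem_insert, Finset.mem_singleton, not_or] at hl
    exact h3 l hl.1 hl.2
  refine ⟨?_, ?_, ?_⟩
  · rw [← Finset.sum_compl_add_sum {i, p} a, Finset.sum_congr rfl h4, Finset.sum_insert hi,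
      Finset.sum_singleton, h1, h2, Finset.sum_const, hc, nsmul_eq_mul]
    ring
  · rw [← Finset.sum_compl_add_sum {i, p} (fun l => a l ^ 2),
      Finset.sum_congr rfl (fun l hl => by rw [h4 l hl]), Finset.sum_insert hi,
      Finset.sum_singleton, h1, h2, Finset.sum_const, hc, nsmul_eq_mul]
    ring
  · intro s
    rw [← Finset.prod_compl_mul_prod {i, p} (fun l => (1 + a l ^ 2 * s ^ 2)⁻¹),
      Finset.prod_congr rfl (fun l hl => by rw [h4 l hl]), Finset.prod_insert hi,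
      Finset.prod_singleton, h1, h2, Finset.prod_const, hc, mul_inv, mul_inv, inv_pow]
    ring

theorem FF_family {ι : Type*} [Fintype ι] [DecidableEq ι] {m : ℕ}
    (hcard : Fintype.card ι = m + 2) {a : ι → ℝ} (ha : a ∈ MM ι) {i p : ι} (hip : i ≠ p)
    {b y z : ℝ} (h1 : a i = b) (h2 : a p = -y) (h3 : ∀ j, j ≠ i → j ≠ p → a j = -z)
    (hy : 0 < y) (hz : 0 ≤ z) : b = y + m * z ∧ FF a = HH m (z ^ 2 / (b * y)) := by
  obtain ⟨k1, k2, k3⟩ := family_prod hcard hip h1 h2 h3
  rw [ha.1] at k1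
  rw [ha.2] at k2
  have hb : b = y + m * z := by linarith
  refine ⟨hb, ?_⟩
  rw [← family_eq hy hb hz (by linear_combination -k2)]
  unfold FF
  congr 1
  funext s
  rw [k3]
  simp only [neg_sq]

/-- the structure theorem: the maximum is attained at one of two special vectors -/
theorem FF_le_max {ι : Type*} [Fintype ι] {m : ℕ} (hm : 0 < m)
    (hcard : Fintype.card ι = m + 2) {x : ι → ℝ} (hx : x ∈ MM ι) :
    FF x ≤ max (HH m 0) (HH m (1 / (m + 1))) := by
  classical
  obtain ⟨a0, ha0, hmax0⟩ := exists_max ι ⟨x, hx⟩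
  refine (hmax0 x hx).trans ?_
  have hne : Nonempty ι := by
    rw [← Fintype.card_pos_iff, hcard]; omega
  -- make the largest coordinate positive
  obtain ⟨i0, -, hi0⟩ := Finset.exists_max_image Finset.univ (fun j => |a0 j|)
    ⟨hne.some, Finset.mem_univ _⟩
  have hi0' : ∀ j, |a0 j| ≤ |a0 i0| := fun j => hi0 j (Finset.mem_univ j)
  have hnz : a0 i0 ≠ 0 := by
    intro h
    have h1 : ∀ j, a0 j = 0 := by
      intro j
      have := hi0' j
      rw [h, abs_zero] at this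
      exact abs_eq_zero.1 (le_antisymm this (abs_nonneg _))
    have h2 := ha0.2
    simp only [h1] at h2
    norm_num at h2
  obtain ⟨a, ha, hmax, hval, hpos, hle⟩ : ∃ a ∈ MM ι, (∀ x ∈ MM ι, FF x ≤ FF a) ∧ FF a = FF a0 ∧
      0 < a i0 ∧ ∀ j, |a j| ≤ a i0 := by
    rcases lt_or_gt_of_ne hnz with h | h
    · refine ⟨fun j => -a0 j, MM_neg ha0, ?_, FF_neg a0, by simpa using h, ?_⟩
      · intro x hx; rw [FF_neg]; exact hmax0 x hx
      · intro j
        rw [abs_neg]
        have := hi0' j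
        rw [abs_of_neg h] at this
        exact this
    · refine ⟨a0, ha0, hmax0, rfl, h, ?_⟩
      intro j
      have := hi0' j
      rw [abs_of_pos h] at this
      exact this
  rw [← hval]
  have hs1 := step1 ha hmax hpos hle
  -- the smallest coordinate
  have hcard2 : (Finset.univ.erase i0).card = m + 1 := by
    rw [Finset.card_erase_of_mem (Finset.mem_univ _), Finset.card_univ, hcard]; omega
  obtain ⟨p, hp, hpmin⟩ := Finset.exists_min_image (Finset.univ.erase i0) a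
    (Finset.card_pos.1 (by omega))
  have hpi : p ≠ i0 := Finset.ne_of_mem_erase hp
  have hpmin' : ∀ j, j ≠ i0 → a p ≤ a j := fun j hj =>
    hpmin j (Finset.mem_erase.2 ⟨hj, Finset.mem_univ j⟩)
  obtain ⟨q, hq⟩ : ((Finset.univ.erase i0).erase p).Nonempty := by
    rw [← Finset.card_pos, Finset.card_erase_of_mem hp]; omega
  have hqp : q ≠ p := Finset.ne_of_mem_erase hq
  have hqi : q ≠ i0 := Finset.ne_of_mem_erase (Finset.mem_of_mem_erase hq)
  have hall : ∀ j, j ≠ i0 → j ≠ p → a j = a q := by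
    intro j hji hjp
    by_contra hne'
    have hjq : j ≠ q := by rintro rfl; exact hne' rfl
    rcases lt_or_gt_of_ne hne' with h | h
    · exact step2 ha hmax hjp.symm hjq hqp.symm (hs1 q hqi) (hpmin' j hji) h
    · exact step2 ha hmax hqp.symm hjq.symm hjp.symm (hs1 j hji) (hpmin' q hqi) h
  have hq0 : 0 ≤ -a q := by linarith [hs1 q hqi]
  have hp0 : 0 < -a p := by
    by_contra hcon
    have h1 : ∀ j, j ≠ i0 → a j = 0 := by
      intro j hj
      have := hs1 j hj
      have := hpmin' j hj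
      linarith
    have h2 : ∑ j, a j = a i0 := by
      rw [Finset.sum_eq_single i0]
      · intro j _ hj; exact h1 j hj
      · intro h; exact absurd (Finset.mem_univ _) h
    rw [ha.1] at h2
    linarith
  obtain ⟨hb, hF⟩ := FF_family hcard ha hpi.symm (b := a i0) (y := -a p) (z := -a q) rfl
    (by ring) (fun j h1 h2 => by rw [hall j h1 h2]; ring) hp0 hq0
  rw [hF]
  apply HH_le_max hm (by
    have hb0 : 0 < a i0 := hpos
    positivity)
  exact beta_le hp0 hb hq0 (by linarith [hpmin' q hqi])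

/-! ### Values at the two special vectors -/

/-- the vector with two nonzero coordinates -/
noncomputable def uvec (n : ℕ) : Fin n → ℝ := fun j =>
  if (j : ℕ) = 0 then (Real.sqrt 2)⁻¹ else if (j : ℕ) = 1 then -(Real.sqrt 2)⁻¹ else 0

/-- the vector with one large negative coordinate -/
noncomputable def wvec (n : ℕ) : Fin n → ℝ := fun j =>
  if (j : ℕ) + 1 = n then -Real.sqrt ((n - 1 : ℝ) / n) else (Real.sqrt (n * (n - 1 : ℝ)))⁻¹

theorem sqrt_two_inv_sq : ((Real.sqrt 2)⁻¹) ^ 2 = 1 / 2 := by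
  rw [inv_pow, Real.sq_sqrt (by norm_num)]; norm_num

theorem uvec_family (m : ℕ) : uvec (m + 2) ∈ MM (Fin (m + 2)) ∧
    FF (uvec (m + 2)) = HH m 0 := by
  have h0 : (⟨0, by omega⟩ : Fin (m + 2)) ≠ ⟨1, by omega⟩ := by
    intro h; exact absurd (congrArg Fin.val h) (by norm_num)
  have hz : ∀ j : Fin (m + 2), j ≠ ⟨0, by omega⟩ → j ≠ ⟨1, by omega⟩ →
      uvec (m + 2) j = -0 := by
    intro j h1 h2
    have h1' : (j : ℕ) ≠ 0 := fun h => h1 (Fin.ext h)
    have h2' : (j : ℕ) ≠ 1 := fun h => h2 (Fin.ext h)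
    simp [uvec, h1', h2']
  have hs2 := sqrt_two_inv_sq
  obtain ⟨k1, k2, k3⟩ := family_prod (m := m) (by simp) h0 (a := uvec (m + 2))
    (b := (Real.sqrt 2)⁻¹) (y := -(Real.sqrt 2)⁻¹) (z := -0) (by simp [uvec]) (by simp [uvec]) hz
  have hmem : uvec (m + 2) ∈ MM (Fin (m + 2)) := by
    refine ⟨?_, ?_⟩
    · rw [k1]; ring
    · rw [k2, neg_sq, hs2]; norm_num
  refine ⟨hmem, ?_⟩
  obtain ⟨-, h⟩ := FF_family (m := m) (by simp) hmem h0 (b := (Real.sqrt 2)⁻¹)
    (y := (Real.sqrt 2)⁻¹) (z := 0) (by simp [uvec]) (by simp [uvec]) hz (by positivity) le_rfl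
  rw [h]
  congr 1
  ring

theorem wvec_family (m : ℕ) : wvec (m + 2) ∈ MM (Fin (m + 2)) ∧
    FF (wvec (m + 2)) = HH m (1 / (m + 1)) := by
  set t : ℝ := (Real.sqrt (((m + 2 : ℕ) : ℝ) * (((m + 2 : ℕ) : ℝ) - 1)))⁻¹ with ht
  have hpos : (0 : ℝ) < ((m + 2 : ℕ) : ℝ) * (((m + 2 : ℕ) : ℝ) - 1) := by
    push_cast
    have : (0 : ℝ) ≤ m := by positivity
    nlinarith
  have ht0 : 0 < t := inv_pos.2 (Real.sqrt_pos.2 hpos)
  have ht2 : t ^ 2 * ((m + 2) * (m + 1)) = 1 := by
    rw [ht, inv_pow, Real.sq_sqrt hpos.le]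
    push_cast
    have : (0 : ℝ) ≤ m := by positivity
    have h1 : ((m : ℝ) + 2) ≠ 0 := by positivity
    have h2 : ((m : ℝ) + 1) ≠ 0 := by positivity
    have h3 : (m : ℝ) + 2 - 1 = m + 1 := by ring
    rw [h3]
    field_simp
  have hlast : Real.sqrt ((((m + 2 : ℕ) : ℝ) - 1) / ((m + 2 : ℕ) : ℝ)) = (m + 1) * t := by
    rw [Real.sqrt_eq_iff_mul_self_eq (by
      apply div_nonneg _ (by positivity)
      push_cast
      have : (0 : ℝ) ≤ m := by positivity
      linarith) (by positivity)]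
    push_cast
    rw [div_eq_iff (by positivity)]
    linear_combination -((m : ℝ) + 1) * ht2
  set i : Fin (m + 2) := ⟨m + 1, by omega⟩ with hi
  set p : Fin (m + 2) := ⟨0, by omega⟩ with hp
  have hip : i ≠ p := by
    intro h; exact absurd (congrArg Fin.val h) (by simp [hi, hp])
  have h1 : wvec (m + 2) i = -((m + 1) * t) := by
    unfold wvec
    rw [if_pos (by simp [hi]), hlast]
  have h2 : ∀ j, j ≠ i → wvec (m + 2) j = t := by
    intro j hj
    unfold wvec
    rw [if_neg]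
    intro h
    apply hj
    apply Fin.ext
    show (j : ℕ) = m + 1
    omega
  obtain ⟨k1, k2, k3⟩ := family_prod (m := m) (by simp) hip (a := wvec (m + 2))
    h1 (h2 p hip.symm) (fun j hj _ => h2 j hj)
  have hmem : wvec (m + 2) ∈ MM (Fin (m + 2)) := by
    refine ⟨?_, ?_⟩
    · rw [k1]; ring
    · rw [k2]
      linear_combination ht2
  refine ⟨hmem, ?_⟩
  rw [← FF_neg]
  obtain ⟨-, h⟩ := FF_family (m := m) (by simp) (MM_neg hmem) hip (b := (m + 1) * t)
    (y := t) (z := t) (by rw [h1]; ring) (by rw [h2 p hip.symm])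
    (fun j hj _ => by rw [h2 j hj]) ht0 ht0.le
  rw [h]
  congr 1
  field_simp

end Pool.Agent.Helper52.CP
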