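import Pool.Agent.Helper52.CP.Basic

namespace Pool.Agent.Helper52.CP

open Set MeasureTheory Filter Topology

theorem integrable_one {α : ℝ} (hα : 0 ≤ α) :
    IntegrableOn (fun s : ℝ => α ^ 4 * (1 + α ^ 2 * s ^ 2)⁻¹) (Ioi 0) := by
  rcases hα.eq_or_lt with h | h
  · rw [← h]
    simp
  · have h1 : IntegrableOn (fun s : ℝ => (1 + s ^ 2)⁻¹) (Ioi (α * 0)) :=
      integrable_inv_one_add_sq.integrableOn
    have h2 := (integrableOn_Ioi_comp_mul_left_iff (fun s : ℝ => (1 + s ^ 2)⁻¹) 0 h).2 h1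
    have h3 : (fun s : ℝ => α ^ 4 * (1 + α ^ 2 * s ^ 2)⁻¹) =
        fun s => α ^ 4 * (1 + (α * s) ^ 2)⁻¹ := by funext s; rw [mul_pow]
    rw [h3]
    exact h2.const_mul _

theorem integral_one {α : ℝ} (hα : 0 ≤ α) :
    ∫ s in Ioi (0 : ℝ), α ^ 4 * (1 + α ^ 2 * s ^ 2)⁻¹ = Real.pi / 2 * α ^ 3 := by
  rcases hα.eq_or_lt with h | h
  · rw [← h]
    simp
  · have h3 : (fun s : ℝ => α ^ 4 * (1 + α ^ 2 * s ^ 2)⁻¹) =
        fun s => α ^ 4 * (fun x : ℝ => (1 + x ^ 2)⁻¹) (α * s) := by funext s; simp only [mul_pow]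
    rw [h3, integral_const_mul, integral_comp_mul_left_Ioi (fun x : ℝ => (1 + x ^ 2)⁻¹) 0 h,
      mul_zero, integral_Ioi_inv_one_add_sq, Real.arctan_zero]
    simp only [smul_eq_mul]
    field_simp
    ring

/-- three factors -/
noncomputable def TT (α β γ : ℝ) : ℝ := ∫ s in Ioi (0 : ℝ),
  ((1 + α ^ 2 * s ^ 2) * (1 + β ^ 2 * s ^ 2) * (1 + γ ^ 2 * s ^ 2))⁻¹

theorem TT_distinct {α β γ : ℝ} (hγ : 0 ≤ γ) (h1 : γ < β) (h2 : β < α) :
    TT α β γ = Real.pi / 2 * ((α * β + β * γ + γ * α) / ((α + β) * (β + γ) * (γ + α))) := by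
  have hβ : 0 < β := by linarith
  have hα : 0 < α := by linarith
  have n1 : α - β ≠ 0 := by intro h; linarith
  have n2 : β - γ ≠ 0 := by intro h; linarith
  have n3 : α - γ ≠ 0 := by intro h; linarith
  have p1 : α + β ≠ 0 := by positivity
  have p2 : β + γ ≠ 0 := by positivity
  have p3 : γ + α ≠ 0 := by positivity
  have e : ∀ s : ℝ, ((1 + α ^ 2 * s ^ 2) * (1 + β ^ 2 * s ^ 2) * (1 + γ ^ 2 * s ^ 2))⁻¹ =
      (((α - β) * (α + β) * ((α - γ) * (γ + α)))⁻¹ * (α ^ 4 * (1 + α ^ 2 * s ^ 2)⁻¹) -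
      ((α - β) * (α + β) * ((β - γ) * (β + γ)))⁻¹ * (β ^ 4 * (1 + β ^ 2 * s ^ 2)⁻¹)) +
      ((α - γ) * (γ + α) * ((β - γ) * (β + γ)))⁻¹ * (γ ^ 4 * (1 + γ ^ 2 * s ^ 2)⁻¹) := by
    intro s
    have a1 : (1 + α ^ 2 * s ^ 2) ≠ 0 := (factor_pos _ _).ne'
    have a2 : (1 + β ^ 2 * s ^ 2) ≠ 0 := (factor_pos _ _).ne'
    have a3 : (1 + γ ^ 2 * s ^ 2) ≠ 0 := (factor_pos _ _).ne'
    field_simp
    ring
  unfold TT
  simp_rw [e]
  have k : ∀ c x : ℝ, 0 ≤ x → ∫ s in Ioi (0 : ℝ), c * (x ^ 4 * (1 + x ^ 2 * s ^ 2)⁻¹) =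
      c * (Real.pi / 2 * x ^ 3) := by
    intro c x hx
    rw [integral_const_mul, integral_one hx]
  rw [integral_add, integral_sub, k _ _ hα.le, k _ _ hβ.le, k _ _ hγ]
  · field_simp
    ring
  · exact (integrable_one hα.le).const_mul _
  · exact (integrable_one hβ.le).const_mul _
  · exact ((integrable_one hα.le).const_mul _).sub ((integrable_one hβ.le).const_mul _)
  · exact (integrable_one hγ).const_mul _

theorem TT_bound {α β γ : ℝ} (s : ℝ) {c : ℝ} (hc : 0 ≤ c) (h : c ≤ α) :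
    ((1 + α ^ 2 * s ^ 2) * (1 + β ^ 2 * s ^ 2) * (1 + γ ^ 2 * s ^ 2))⁻¹ ≤
      (1 + c ^ 2 * s ^ 2)⁻¹ := by
  apply inv_anti₀ (factor_pos _ _)
  have h1 : c ^ 2 * s ^ 2 ≤ α ^ 2 * s ^ 2 :=
    mul_le_mul_of_nonneg_right (pow_le_pow_left₀ hc h 2) (sq_nonneg s)
  have h2 : 0 ≤ β ^ 2 * s ^ 2 := by positivity
  have h3 : 0 ≤ γ ^ 2 * s ^ 2 := by positivity
  have h4 : 0 ≤ α ^ 2 * s ^ 2 := by positivity
  have h5 : (1 + α ^ 2 * s ^ 2) * 1 ≤ (1 + α ^ 2 * s ^ 2) * (1 + β ^ 2 * s ^ 2) :=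
    mul_le_mul_of_nonneg_left (by linarith) (by linarith)
  have h6 : (1 + α ^ 2 * s ^ 2) * (1 + β ^ 2 * s ^ 2) * 1 ≤
      (1 + α ^ 2 * s ^ 2) * (1 + β ^ 2 * s ^ 2) * (1 + γ ^ 2 * s ^ 2) :=
    mul_le_mul_of_nonneg_left (by linarith) (by positivity)
  linarith

theorem TT_integrable {α β γ : ℝ} (hα : 0 < α) : IntegrableOn (fun s : ℝ =>
    ((1 + α ^ 2 * s ^ 2) * (1 + β ^ 2 * s ^ 2) * (1 + γ ^ 2 * s ^ 2))⁻¹) (Ioi 0) := by
  have h0 := integrable_one hα.le
  have h1 : IntegrableOn (fun s : ℝ => (1 + α ^ 2 * s ^ 2)⁻¹) (Ioi 0) := by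
    have := h0.const_mul (α ^ 4)⁻¹
    refine this.congr ?_
    filter_upwards with s
    field_simp
  apply Integrable.mono' h1
  · apply Continuous.aestronglyMeasurable
    apply Continuous.inv₀ (by fun_prop)
    intro s
    have := factor_pos α s
    have := factor_pos β s
    have := factor_pos γ s
    positivity
  · filter_upwards with s
    have := factor_pos α s
    have := factor_pos β s
    have := factor_pos γ s
    rw [Real.norm_of_nonneg (by positivity)]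
    exact TT_bound s hα.le le_rfl

theorem TT_formula {α β γ : ℝ} (hγ : 0 ≤ γ) (h1 : γ ≤ β) (h2 : β ≤ α) (hβ : 0 < β) :
    TT α β γ = Real.pi / 2 * ((α * β + β * γ + γ * α) / ((α + β) * (β + γ) * (γ + α))) := by
  have hα : 0 < α := by linarith
  have hT : Tendsto (fun t : ℝ => TT (α + 2 * t) (β + t) γ) (𝓝[>] 0) (𝓝 (TT α β γ)) := by
    unfold TT
    apply tendsto_integral_filter_of_dominated_convergence (fun s => (1 + α ^ 2 * s ^ 2)⁻¹)
    · filter_upwards with t
      apply Continuous.aestronglyMeasurable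
      apply Continuous.inv₀ (by fun_prop)
      intro s
      have := factor_pos (α + 2 * t) s
      have := factor_pos (β + t) s
      have := factor_pos γ s
      positivity
    · filter_upwards [self_mem_nhdsWithin] with t ht
      filter_upwards with s
      have ht' : 0 < t := ht
      have := factor_pos (α + 2 * t) s
      have := factor_pos (β + t) s
      have := factor_pos γ s
      rw [Real.norm_of_nonneg (by positivity)]
      exact TT_bound s hα.le (by linarith)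
    · have h0 := (integrable_one hα.le).const_mul (α ^ 4)⁻¹
      refine h0.congr ?_
      filter_upwards with s
      field_simp
    · filter_upwards with s
      apply Tendsto.mono_left _ nhdsWithin_le_nhds
      have hc : ContinuousAt (fun t : ℝ => ((1 + (α + 2 * t) ^ 2 * s ^ 2) *
          (1 + (β + t) ^ 2 * s ^ 2) * (1 + γ ^ 2 * s ^ 2))⁻¹) 0 := by
        apply ContinuousAt.inv₀ (by fun_prop)
        have := factor_pos (α + 2 * 0) s
        have := factor_pos (β + 0) s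
        have := factor_pos γ s
        positivity
      have := hc.tendsto
      simpa using this
  have hR : Tendsto (fun t : ℝ => Real.pi / 2 * (((α + 2 * t) * (β + t) + (β + t) * γ +
      γ * (α + 2 * t)) / (((α + 2 * t) + (β + t)) * ((β + t) + γ) * (γ + (α + 2 * t)))))
      (𝓝[>] 0) (𝓝 (Real.pi / 2 * ((α * β + β * γ + γ * α) /
        ((α + β) * (β + γ) * (γ + α))))) := by
    apply Tendsto.mono_left _ nhdsWithin_le_nhds
    have hc : ContinuousAt (fun t : ℝ => Real.pi / 2 * (((α + 2 * t) * (β + t) + (β + t) * γ +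
      γ * (α + 2 * t)) / (((α + 2 * t) + (β + t)) * ((β + t) + γ) * (γ + (α + 2 * t))))) 0 := by
      apply ContinuousAt.mul continuousAt_const
      apply ContinuousAt.div (by fun_prop) (by fun_prop)
      have : 0 < (α + 2 * 0 + (β + 0)) * (β + 0 + γ) * (γ + (α + 2 * 0)) := by
        simp only [mul_zero, add_zero]
        positivity
      exact this.ne'
    have := hc.tendsto
    simpa using this
  apply tendsto_nhds_unique hT
  apply hR.congr'
  filter_upwards [self_mem_nhdsWithin] with t ht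
  have ht' : 0 < t := ht
  rw [TT_distinct hγ (by linarith) (by linarith)]

/-- comparison of two triples with equal first two symmetric functions, against a decreasing
weight -/
theorem compare {x1 x2 x3 y1 y2 y3 : ℝ} (hx3 : 0 ≤ x3) (hx32 : x3 ≤ x2) (hx21 : x2 ≤ x1)
    (hx2 : 0 < x2) (hy : 0 ≤ y2) (hy1 : y2 ≤ y1) (hy3 : 0 < y3) (hy11 : 0 < y1)
    (e1 : y1 + y2 + y3 = x1 + x2 + x3)
    (e2 : y1 * y2 + y2 * y3 + y3 * y1 = x1 * x2 + x2 * x3 + x3 * x1)
    (e3 : x1 * x2 * x3 < y1 * y2 * y3) : TT x1 x2 x3 < TT y1 y2 y3 := by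
  have hx1 : 0 < x1 := by linarith
  -- formula for the second triple, by sorting
  have hsym1 : ∀ a b c : ℝ, TT a b c = TT a c b := by
    intro a b c
    unfold TT
    congr 1
    funext s
    rw [mul_assoc, mul_comm (1 + b ^ 2 * s ^ 2), ← mul_assoc]
  have hsym2 : ∀ a b c : ℝ, TT a b c = TT b a c := by
    intro a b c
    unfold TT
    congr 1
    funext s
    rw [mul_comm (1 + a ^ 2 * s ^ 2)]
  have hfy : TT y1 y2 y3 = Real.pi / 2 * ((y1 * y2 + y2 * y3 + y3 * y1) /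
      ((y1 + y2) * (y2 + y3) * (y3 + y1))) := by
    rcases le_total y3 y2 with h | h
    · exact TT_formula hy3.le h hy1 (by linarith)
    · rcases le_total y3 y1 with h' | h'
      · rw [hsym1, TT_formula hy h h' hy3]
        congr 1
        rw [show y1 * y3 + y3 * y2 + y2 * y1 = y1 * y2 + y2 * y3 + y3 * y1 by ring,
          show (y1 + y3) * (y3 + y2) * (y2 + y1) = (y1 + y2) * (y2 + y3) * (y3 + y1) by ring]
      · rw [hsym1, hsym2, TT_formula hy hy1 h' hy11]
        congr 1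
        rw [show y3 * y1 + y1 * y2 + y2 * y3 = y1 * y2 + y2 * y3 + y3 * y1 by ring,
          show (y3 + y1) * (y1 + y2) * (y2 + y3) = (y1 + y2) * (y2 + y3) * (y3 + y1) by ring]
  rw [TT_formula hx3 hx32 hx21 hx2, hfy, e2]
  have d1 : (x1 + x2) * (x2 + x3) * (x3 + x1) =
      (x1 + x2 + x3) * (x1 * x2 + x2 * x3 + x3 * x1) - x1 * x2 * x3 := by ring
  have d2 : (y1 + y2) * (y2 + y3) * (y3 + y1) =
      (x1 + x2 + x3) * (x1 * x2 + x2 * x3 + x3 * x1) - y1 * y2 * y3 := by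
    rw [← e1, ← e2]; ring
  have q1 : 0 < (y1 + y2) * (y2 + y3) * (y3 + y1) := by positivity
  have q2 : 0 < x1 * x2 + x2 * x3 + x3 * x1 := by positivity
  apply mul_lt_mul_of_pos_left _ (by positivity)
  apply div_lt_div_of_pos_left q2 q1
  rw [d1, d2]
  linarith

end Pool.Agent.Helper52.CP
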