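import Pool.Agent.Helper52.CP.Basic

namespace Pool.Agent.Helper52.CP

open Set MeasureTheory Filter Topology FourierTransform

/-- the `ℓ¹` norm on Euclidean space -/
def l1 {n : ℕ} (x : EuclideanSpace ℝ (Fin n)) : ℝ := ∑ i, |x i|

/-- `(n-1)`-dimensional Lebesgue measure of the section of the cross-polytope by the hyperplane
orthogonal to `a` -/
noncomputable def sectionVol {n : ℕ} (a : EuclideanSpace ℝ (Fin n)) : ENNReal :=
  volume {x : (Submodule.span ℝ {a})ᗮ | ∑ i, |(x : EuclideanSpace ℝ (Fin n)) i| ≤ 1}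

theorem exp_neg_le (x : ℝ) (hx : 0 ≤ x) (N : ℕ) :
    Real.exp (-x) ≤ Real.exp 1 * N.factorial * (1 + x) ^ (-(N : ℝ)) := by
  have h1 := Real.pow_div_factorial_le_exp (x := 1 + x) (by linarith) N
  have h2 : 0 < (1 + x) ^ N := by positivity
  have h3 : 0 < (N.factorial : ℝ) := by positivity
  rw [Real.rpow_neg (by linarith), Real.rpow_natCast]
  rw [div_le_iff₀ h3] at h1
  have h4 : Real.exp (-x) * Real.exp (1 + x) = Real.exp 1 := by
    rw [← Real.exp_add]; congr 1; ring
  rw [← div_eq_mul_inv, le_div_iff₀ h2, ← h4]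
  have := Real.exp_pos (-x)
  nlinarith

theorem integrable_exp_neg_norm (V : Type*) [NormedAddCommGroup V] [NormedSpace ℝ V]
    [FiniteDimensional ℝ V] [MeasurableSpace V] [BorelSpace V] (μ : Measure V)
    [μ.IsAddHaarMeasure] : Integrable (fun x : V => Real.exp (-‖x‖)) μ := by
  set N : ℕ := Module.finrank ℝ V + 1 with hN
  have h := integrable_one_add_norm (E := V) (μ := μ) (r := N) (by
    rw [hN]; push_cast; linarith)
  apply Integrable.mono' (h.const_mul (Real.exp 1 * N.factorial))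
  · exact (by fun_prop : Continuous fun x : V => Real.exp (-‖x‖)).aestronglyMeasurable
  · filter_upwards with x
    rw [Real.norm_of_nonneg (Real.exp_pos _).le]
    exact exp_neg_le _ (norm_nonneg x) N

theorem continuous_l1 {n : ℕ} : Continuous (l1 (n := n)) := by
  unfold l1
  fun_prop

theorem norm_le_l1 {n : ℕ} (x : EuclideanSpace ℝ (Fin n)) : ‖x‖ ≤ l1 x := by
  have h0 : 0 ≤ l1 x := Finset.sum_nonneg fun i _ => abs_nonneg _
  rw [EuclideanSpace.norm_eq, Real.sqrt_le_left h0]
  unfold l1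
  have : ∑ i, ‖x i‖ ^ 2 = ∑ i, |x i| * |x i| := by
    apply Finset.sum_congr rfl
    intro i _
    rw [Real.norm_eq_abs, sq]
  rw [this, sq, Finset.sum_mul_sum]
  apply Finset.sum_le_sum
  intro i _
  exact Finset.single_le_sum (f := fun j => |x i| * |x j|)
    (fun j _ => mul_nonneg (abs_nonneg _) (abs_nonneg _)) (Finset.mem_univ i)

/-- the one-dimensional transform -/
theorem integral_laplace (c : ℝ) :
    ∫ x : ℝ, Complex.exp (-((|x| : ℝ) : ℂ)) * Complex.exp (-(c * x : ℂ) * Complex.I) =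
      2 / (1 + (c : ℂ) ^ 2) := by
  have hIoi : EqOn (fun x : ℝ => Complex.exp (-((|x| : ℝ) : ℂ)) * Complex.exp (-(c * x : ℂ) * Complex.I))
      (fun x : ℝ => Complex.exp ((-1 - c * Complex.I) * x)) (Ioi 0) := by
    intro x hx
    simp only
    rw [abs_of_pos (show (0 : ℝ) < x from hx), ← Complex.exp_add]
    congr 1; ring
  have hIic : EqOn (fun x : ℝ => Complex.exp (-((|x| : ℝ) : ℂ)) * Complex.exp (-(c * x : ℂ) * Complex.I))
      (fun x : ℝ => Complex.exp ((1 - c * Complex.I) * x)) (Iic 0) := by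
    intro x hx
    simp only
    rw [abs_of_nonpos (show x ≤ 0 from hx), ← Complex.exp_add]
    congr 1; push_cast; ring
  have r1 : (-1 - (c : ℂ) * Complex.I).re < 0 := by simp
  have r2 : 0 < (1 - (c : ℂ) * Complex.I).re := by simp
  have i1 := (integrableOn_exp_mul_complex_Ioi r1 0).congr_fun hIoi.symm measurableSet_Ioi
  have i2 := (integrableOn_exp_mul_complex_Iic r2 0).congr_fun hIic.symm measurableSet_Iic
  rw [← intervalIntegral.integral_Iic_add_Ioi i2 i1, setIntegral_congr_fun measurableSet_Ioi hIoi,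
    setIntegral_congr_fun measurableSet_Iic hIic, integral_exp_mul_complex_Ioi r1,
    integral_exp_mul_complex_Iic r2]
  simp only [Complex.ofReal_zero, mul_zero, Complex.exp_zero]
  have h1 : (-1 - (c : ℂ) * Complex.I) ≠ 0 := by
    intro h; rw [h] at r1; simp at r1
  have h2 : (1 - (c : ℂ) * Complex.I) ≠ 0 := by
    intro h; rw [h] at r2; simp at r2
  have h3 : (1 + (c : ℂ) ^ 2) = (1 - c * Complex.I) * (-(-1 - c * Complex.I)) := by
    ring_nf
    rw [Complex.I_sq]
    ring
  have h4 : (-(-1 - (c : ℂ) * Complex.I)) ≠ 0 := neg_ne_zero.2 h1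
  rw [h3]
  field_simp
  ring

section

variable {n : ℕ} (a : EuclideanSpace ℝ (Fin n))

/-- the hyperplane -/
noncomputable abbrev Kp : Submodule ℝ (EuclideanSpace ℝ (Fin n)) := (Submodule.span ℝ {a})ᗮ

variable {a}

theorem inner_Kp (k : Kp a) : inner ℝ a (k : EuclideanSpace ℝ (Fin n)) = 0 :=
  (Submodule.mem_orthogonal_singleton_iff_inner_right).1 k.2

theorem norm_add_smul (ha : ‖a‖ = 1) (k : Kp a) (t : ℝ) :
    ‖(k : EuclideanSpace ℝ (Fin n)) + t • a‖ ^ 2 = ‖k‖ ^ 2 + t ^ 2 := by
  rw [@norm_add_sq_real, inner_smul_right, real_inner_comm, inner_Kp, norm_smul, ha]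
  simp

theorem finrank_Kp (ha : ‖a‖ = 1) : Module.finrank ℝ (Kp a) + 1 = n := by
  have h1 := (Submodule.span ℝ {a}).finrank_add_finrank_orthogonal
  have ha0 : a ≠ 0 := by rintro rfl; simp at ha
  rw [finrank_span_singleton ha0, finrank_euclideanSpace_fin] at h1
  rw [add_comm]
  exact h1

/-- orthogonal decomposition as an isometry -/
noncomputable def decomp (ha : ‖a‖ = 1) :
    WithLp 2 (Kp a × ℝ) ≃ₗᵢ[ℝ] EuclideanSpace ℝ (Fin n) :=
  LinearIsometry.toLinearIsometryEquiv
    { toFun := fun p => (p.fst : EuclideanSpace ℝ (Fin n)) + p.snd • a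
      map_add' := by
        intro p q
        simp only [WithLp.add_fst, WithLp.add_snd, Submodule.coe_add, add_smul]
        abel
      map_smul' := by
        intro c p
        simp only [WithLp.smul_fst, WithLp.smul_snd, Submodule.coe_smul, smul_eq_mul,
          RingHom.id_apply, smul_add, mul_smul]
      norm_map' := by
        intro p
        have h1 := norm_add_smul ha p.fst p.snd
        have h2 := WithLp.prod_norm_sq_eq_of_L2 p
        have h3 : ‖(p.fst : EuclideanSpace ℝ (Fin n)) + p.snd • a‖ ^ 2 = ‖p‖ ^ 2 := by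
          rw [h1, h2, Real.norm_eq_abs, sq_abs]
        exact (sq_eq_sq₀ (norm_nonneg _) (norm_nonneg _)).1 h3 } (by
    have h := finrank_Kp ha
    rw [finrank_euclideanSpace_fin]
    have h2 : Module.finrank ℝ (WithLp 2 (Kp a × ℝ)) = Module.finrank ℝ (Kp a × ℝ) :=
      (WithLp.linearEquiv 2 ℝ (Kp a × ℝ)).finrank_eq
    rw [h2, Module.finrank_prod, Module.finrank_self]
    exact h)

theorem decomp_apply (ha : ‖a‖ = 1) (p : WithLp 2 (Kp a × ℝ)) :
    decomp ha p = (p.fst : EuclideanSpace ℝ (Fin n)) + p.snd • a := rfl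

theorem measurePreserving_decomp (ha : ‖a‖ = 1) :
    MeasurePreserving (fun p : Kp a × ℝ => (p.1 : EuclideanSpace ℝ (Fin n)) + p.2 • a)
      volume volume :=
  (decomp ha).measurePreserving.comp (WithLp.volume_preserving_toLp (Kp a) ℝ)

theorem measurableEmbedding_decomp (ha : ‖a‖ = 1) :
    MeasurableEmbedding (fun p : Kp a × ℝ => (p.1 : EuclideanSpace ℝ (Fin n)) + p.2 • a) :=
  (decomp ha).toMeasurableEquiv.measurableEmbedding.comp
    (MeasurableEquiv.toLp 2 (Kp a × ℝ)).measurableEmbedding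

end

end Pool.Agent.Helper52.CP
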