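import Pool.Agent.Helper52.CP.Volume

namespace Pool.Agent.Helper52.CP

open Set MeasureTheory Filter Topology FourierTransform

variable {n : ℕ} {a : EuclideanSpace ℝ (Fin n)}

/-- integrals over parallel hyperplanes -/
noncomputable def fsec (a : EuclideanSpace ℝ (Fin n)) (t : ℝ) : ℂ :=
  ∫ k : Kp a, Complex.exp (-(l1 ((k : EuclideanSpace ℝ (Fin n)) + t • a) : ℂ))

theorem norm_cexp_l1 (x : EuclideanSpace ℝ (Fin n)) :
    ‖Complex.exp (-(l1 x : ℂ))‖ = Real.exp (-l1 x) := by
  rw [← Complex.ofReal_neg, Complex.norm_exp_ofReal]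

theorem continuous_cexp_l1 : Continuous fun x : EuclideanSpace ℝ (Fin n) =>
    Complex.exp (-(l1 x : ℂ)) := by
  have := continuous_l1 (n := n)
  fun_prop

theorem integrable_cexp_l1 : Integrable fun x : EuclideanSpace ℝ (Fin n) =>
    Complex.exp (-(l1 x : ℂ)) := by
  apply Integrable.mono' (integrable_exp_neg_norm (EuclideanSpace ℝ (Fin n)) volume)
    continuous_cexp_l1.aestronglyMeasurable
  filter_upwards with x
  rw [norm_cexp_l1]
  exact Real.exp_le_exp.2 (neg_le_neg (norm_le_l1 x))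

theorem norm_le_add (ha : ‖a‖ = 1) (k : Kp a) (t : ℝ) :
    ‖k‖ ≤ ‖(k : EuclideanSpace ℝ (Fin n)) + t • a‖ := by
  have h := norm_add_smul ha k t
  have h2 : ‖k‖ ^ 2 ≤ ‖(k : EuclideanSpace ℝ (Fin n)) + t • a‖ ^ 2 := by
    rw [h]; nlinarith [sq_nonneg t]
  exact (sq_le_sq₀ (norm_nonneg _) (norm_nonneg _)).1 h2

theorem continuous_fsec (ha : ‖a‖ = 1) : Continuous (fsec a) := by
  unfold fsec
  apply continuous_of_dominated (bound := fun k : Kp a => Real.exp (-‖k‖))
  · intro t
    apply Continuous.aestronglyMeasurable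
    exact continuous_cexp_l1.comp (by fun_prop : Continuous fun k : Kp a =>
      (k : EuclideanSpace ℝ (Fin n)) + t • a)
  · intro t
    filter_upwards with k
    rw [norm_cexp_l1]
    apply Real.exp_le_exp.2
    apply neg_le_neg
    exact (norm_le_add ha k t).trans (norm_le_l1 _)
  · exact integrable_exp_neg_norm (Kp a) volume
  · filter_upwards with k
    exact continuous_cexp_l1.comp (by fun_prop : Continuous fun t : ℝ =>
      (k : EuclideanSpace ℝ (Fin n)) + t • a)

theorem integrable_prod (ha : ‖a‖ = 1) : Integrable (fun p : Kp a × ℝ =>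
    Complex.exp (-(l1 ((p.1 : EuclideanSpace ℝ (Fin n)) + p.2 • a) : ℂ)))
    (volume.prod volume) :=
  ((measurePreserving_decomp ha).integrable_comp_emb (measurableEmbedding_decomp ha)).2
    integrable_cexp_l1

theorem integrable_fsec (ha : ‖a‖ = 1) : Integrable (fsec a) :=
  (integrable_prod ha).integral_prod_right

theorem inner_eq_sum (x : EuclideanSpace ℝ (Fin n)) : inner ℝ a x = ∑ i, a i * x i := by
  rw [PiLp.inner_apply]
  apply Finset.sum_congr rfl
  intro i _
  rw [real_inner_eq_re_inner, RCLike.inner_apply]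
  simp [mul_comm]

/-- the Fourier transform of the section function -/
theorem fourier_fsec (ha : ‖a‖ = 1) (τ : ℝ) :
    𝓕 (fsec a) τ = ∏ i, (2 / (1 + ((2 * Real.pi * τ * a i : ℝ) : ℂ) ^ 2)) := by
  rw [Real.fourier_real_eq_integral_exp_smul]
  -- write as an integral over the product
  have h1 : ∀ t : ℝ, Complex.exp ((-2 * Real.pi * t * τ : ℝ) * Complex.I) • fsec a t =
      ∫ k : Kp a, (fun p : Kp a × ℝ => Complex.exp ((-2 * Real.pi * p.2 * τ : ℝ) * Complex.I) *
        Complex.exp (-(l1 ((p.1 : EuclideanSpace ℝ (Fin n)) + p.2 • a) : ℂ))) (k, t) := by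
    intro t
    unfold fsec
    rw [smul_eq_mul, ← integral_const_mul]
  simp_rw [h1]
  have hint : Integrable (fun p : Kp a × ℝ =>
      Complex.exp ((-2 * Real.pi * p.2 * τ : ℝ) * Complex.I) *
        Complex.exp (-(l1 ((p.1 : EuclideanSpace ℝ (Fin n)) + p.2 • a) : ℂ)))
      (volume.prod volume) := by
    apply (integrable_prod ha).mono
    · apply Continuous.aestronglyMeasurable
      apply Continuous.mul
      · fun_prop
      · exact continuous_cexp_l1.comp (by fun_prop : Continuous fun p : Kp a × ℝ =>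
          (p.1 : EuclideanSpace ℝ (Fin n)) + p.2 • a)
    · filter_upwards with p
      rw [norm_mul, Complex.norm_exp_ofReal_mul_I, one_mul]
  rw [← integral_prod_symm _ hint]
  have h2 : ∀ p : Kp a × ℝ, Complex.exp ((-2 * Real.pi * p.2 * τ : ℝ) * Complex.I) *
        Complex.exp (-(l1 ((p.1 : EuclideanSpace ℝ (Fin n)) + p.2 • a) : ℂ)) =
      (fun x : EuclideanSpace ℝ (Fin n) => Complex.exp ((-2 * Real.pi * inner ℝ a x * τ : ℝ) *
        Complex.I) * Complex.exp (-(l1 x : ℂ))) ((p.1 : EuclideanSpace ℝ (Fin n)) + p.2 • a) := by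
    intro p
    have : inner ℝ a ((p.1 : EuclideanSpace ℝ (Fin n)) + p.2 • a) = p.2 := by
      rw [inner_add_right, inner_Kp, inner_smul_right, real_inner_self_eq_norm_sq, ha]
      simp
    simp only [this]
  rw [integral_congr_ae (ae_of_all _ h2)]
  refine Eq.trans ((measurePreserving_decomp ha).integral_comp (measurableEmbedding_decomp ha)
    (fun x : EuclideanSpace ℝ (Fin n) => Complex.exp ((-2 * Real.pi * inner ℝ a x * τ : ℝ) *
        Complex.I) * Complex.exp (-(l1 x : ℂ)))) ?_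
  have h3 : ∀ x : EuclideanSpace ℝ (Fin n), Complex.exp ((-2 * Real.pi * inner ℝ a x * τ : ℝ) *
        Complex.I) * Complex.exp (-(l1 x : ℂ)) =
      (fun y : Fin n → ℝ => ∏ i, (fun (i : Fin n) (z : ℝ) => Complex.exp (-((|z| : ℝ) : ℂ)) *
        Complex.exp (-(((2 * Real.pi * τ * a i : ℝ) : ℂ) * z) * Complex.I)) i (y i))
        ((MeasurableEquiv.toLp 2 (Fin n → ℝ)).symm x) := by
    intro x
    show _ = ∏ i, (Complex.exp (-((|x i| : ℝ) : ℂ)) *
        Complex.exp (-(((2 * Real.pi * τ * a i : ℝ) : ℂ) * (x i : ℝ)) * Complex.I))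
    rw [Finset.prod_mul_distrib, ← Complex.exp_sum, ← Complex.exp_sum, mul_comm, inner_eq_sum]
    congr 2
    · unfold l1
      push_cast
      rw [Finset.sum_neg_distrib]
    · push_cast
      rw [Finset.mul_sum, Finset.sum_mul, Finset.sum_mul]
      apply Finset.sum_congr rfl
      intro i _
      ring
  simp_rw [h3]
  rw [(EuclideanSpace.volume_preserving_symm_measurableEquiv_toLp (Fin n)).integral_comp'
    (fun y : Fin n → ℝ => ∏ i, (fun (i : Fin n) (z : ℝ) => Complex.exp (-((|z| : ℝ) : ℂ)) *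
        Complex.exp (-(((2 * Real.pi * τ * a i : ℝ) : ℂ) * z) * Complex.I)) i (y i))]
  refine Eq.trans (integral_fintype_prod_volume_eq_prod (ι := Fin n) (E := fun _ => ℝ)
    (fun (i : Fin n) (z : ℝ) => Complex.exp (-((|z| : ℝ) : ℂ)) *
        Complex.exp (-(((2 * Real.pi * τ * a i : ℝ) : ℂ) * z) * Complex.I))) ?_
  apply Finset.prod_congr rfl
  intro i _
  exact integral_laplace (2 * Real.pi * τ * a i)

theorem fourier_real (τ : ℝ) : ∏ i, (2 / (1 + ((2 * Real.pi * τ * a i : ℝ) : ℂ) ^ 2)) =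
    ((2 ^ n * ∏ i, (1 + a i ^ 2 * (2 * Real.pi * τ) ^ 2)⁻¹ : ℝ) : ℂ) := by
  push_cast
  simp_rw [div_eq_mul_inv]
  rw [Finset.prod_mul_distrib]
  simp only [Finset.prod_const, Finset.card_univ, Fintype.card_fin]
  congr 1
  apply Finset.prod_congr rfl
  intro i _
  congr 2
  ring

theorem sum_sq_of_norm (ha : ‖a‖ = 1) : ∑ i, a i ^ 2 = 1 := by
  have h := EuclideanSpace.norm_sq_eq a
  rw [ha] at h
  simp only [Real.norm_eq_abs, sq_abs] at h
  rw [← h]; norm_num

theorem integrable_fourier (ha : ‖a‖ = 1) : Integrable (fun τ : ℝ =>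
    (2 ^ n * ∏ i, (1 + a i ^ 2 * (2 * Real.pi * τ) ^ 2)⁻¹ : ℝ)) := by
  have h0 : Integrable fun s : ℝ => ∏ i, (1 + a i ^ 2 * s ^ 2)⁻¹ := by
    apply Integrable.mono' integrable_inv_one_add_sq
    · exact (continuous_prod' _ (fun i => a i)).aestronglyMeasurable
    · filter_upwards with s
      rw [Real.norm_of_nonneg (prod_pos' _ (fun i => a i) _).le]
      exact prod_le_bound (sum_sq_of_norm ha) s
  exact (h0.comp_mul_left' (R := 2 * Real.pi) Real.two_pi_pos.ne').const_mul _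

theorem integral_fourier (a : EuclideanSpace ℝ (Fin n)) :
    ∫ τ : ℝ, (2 ^ n * ∏ i, (1 + a i ^ 2 * (2 * Real.pi * τ) ^ 2)⁻¹ : ℝ) =
      2 ^ n / Real.pi * FF (fun i => a i) := by
  have e1 : (fun τ : ℝ => (2 ^ n * ∏ i, (1 + a i ^ 2 * (2 * Real.pi * τ) ^ 2)⁻¹ : ℝ)) =
      fun τ => (fun x : ℝ => (2 ^ n * ∏ i, (1 + a i ^ 2 * (2 * Real.pi * x) ^ 2)⁻¹ : ℝ)) |τ| := by
    funext τ
    simp only [mul_pow, sq_abs]
  rw [e1, integral_comp_abs
    (f := fun x : ℝ => (2 ^ n * ∏ i, (1 + a i ^ 2 * (2 * Real.pi * x) ^ 2)⁻¹ : ℝ))]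
  have e2 : ∫ x in Ioi (0 : ℝ), (2 ^ n * ∏ i, (1 + a i ^ 2 * (2 * Real.pi * x) ^ 2)⁻¹ : ℝ) =
      2 ^ n * ((2 * Real.pi)⁻¹ * FF (fun i => a i)) := by
    rw [integral_const_mul]
    congr 1
    have := integral_comp_mul_left_Ioi (fun s : ℝ => ∏ i, (1 + a i ^ 2 * s ^ 2)⁻¹) 0
      Real.two_pi_pos
    rw [mul_zero, smul_eq_mul] at this
    exact this
  rw [e2]
  have := Real.pi_pos.ne'
  field_simp

/-- the integral of `exp(-ℓ¹)` over the hyperplane -/
theorem integral_Kp (ha : ‖a‖ = 1) :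
    ∫ k : Kp a, Real.exp (-l1 (k : EuclideanSpace ℝ (Fin n))) =
      2 ^ n / Real.pi * FF (fun i => a i) := by
  have hF : 𝓕 (fsec a) = fun τ : ℝ => ((2 ^ n *
      ∏ i, (1 + a i ^ 2 * (2 * Real.pi * τ) ^ 2)⁻¹ : ℝ) : ℂ) := by
    funext τ
    rw [fourier_fsec ha, fourier_real]
  have hint : Integrable (𝓕 (fsec a)) := by
    rw [hF]
    exact (integrable_fourier ha).ofReal
  have hinv := (integrable_fsec ha).fourierInv_fourier_eq hint
    (continuous_fsec ha).continuousAt (v := (0 : ℝ))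
  rw [Real.fourierInv_eq'] at hinv
  simp only [inner_zero_right, mul_zero, Complex.ofReal_zero, zero_mul, Complex.exp_zero,
    one_smul] at hinv
  rw [hF, integral_complex_ofReal, integral_fourier] at hinv
  have h0 : fsec a 0 = ((∫ k : Kp a, Real.exp (-l1 (k : EuclideanSpace ℝ (Fin n))) : ℝ) : ℂ) := by
    unfold fsec
    rw [← integral_complex_ofReal]
    congr 1
    funext k
    rw [zero_smul, add_zero]
    push_cast
    rfl
  rw [h0] at hinv
  exact_mod_cast hinv.symm

/-- the section formula -/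
theorem sectionVol_eq (hn : 2 ≤ n) (ha : ‖a‖ = 1) :
    sectionVol a = ENNReal.ofReal (2 ^ n / (Real.pi * (n - 1).factorial) *
      FF (fun i => a i)) := by
  have hfr := finrank_Kp ha
  have hfr' : Module.finrank ℝ (Kp a) = n - 1 := by omega
  have hnt : Nontrivial (Kp a) := by
    apply Module.nontrivial_of_finrank_pos (R := ℝ)
    omega
  set g : Kp a → ℝ := fun k => l1 (k : EuclideanSpace ℝ (Fin n)) with hg
  have g1 : g 0 = 0 := by simp [hg, l1]
  have g2 : ∀ x, g (-x) = g x := by intro x; simp [hg, l1]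
  have g3 : ∀ x y, g (x + y) ≤ g x + g y := by
    intro x y
    simp only [hg, l1, Submodule.coe_add, PiLp.add_apply]
    rw [← Finset.sum_add_distrib]
    exact Finset.sum_le_sum fun i _ => abs_add_le _ _
  have g4 : ∀ {x}, g x = 0 → x = 0 := by
    intro x hx
    have h1 := norm_le_l1 (x : EuclideanSpace ℝ (Fin n))
    have h2 : l1 (x : EuclideanSpace ℝ (Fin n)) = 0 := hx
    rw [h2] at h1
    exact norm_le_zero_iff.1 h1
  have g5 : ∀ (r : ℝ) x, g (r • x) ≤ |r| * g x := by
    intro r x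
    simp only [hg, l1, Submodule.coe_smul, PiLp.smul_apply, smul_eq_mul, abs_mul]
    rw [Finset.mul_sum]
  have h1 : sectionVol a = volume {x : Kp a | g x < 1} :=
    measure_le_eq_lt volume g1 g2 g3 g4 g5 1
  rw [h1, measure_lt_one_eq_integral_div_gamma volume g1 g2 g3 g4 g5 one_pos]
  congr 1
  simp only [Real.rpow_one, hg, div_one]
  rw [integral_Kp ha, hfr', Real.Gamma_nat_eq_factorial]
  have := Real.pi_pos.ne'
  have : ((n - 1).factorial : ℝ) ≠ 0 := by positivity
  field_simp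

end Pool.Agent.Helper52.CP
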